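import Mathlib

set_option autoImplicit false

open MeasureTheory Set

namespace Pool.Agent.H158Z

/-- truncated power of the norm -/
noncomputable def kc (R c : ℝ) (u : ℂ) : ℝ := (Metric.ball (0:ℂ) R).indicator (fun u => ‖u‖ ^ (-c)) u

lemma kc_nonneg (R c : ℝ) (u : ℂ) : 0 ≤ kc R c u := by
  unfold kc
  apply indicator_nonneg
  intro x _
  positivity

lemma kc_eq {R c : ℝ} {u : ℂ} (h : ‖u‖ < R) : kc R c u = ‖u‖ ^ (-c) := by
  unfold kc
  rw [indicator_of_mem]
  simpa using h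

lemma kc_integrable (R c : ℝ) (hR : 0 < R) (hc : c < 2) : Integrable (kc R c) volume := by
  unfold kc
  change Integrable ((Metric.ball (0:ℂ) R).indicator (fun u => ‖u‖ ^ (-c))) volume
  rw [integrable_indicator_iff measurableSet_ball,
    integrableOn_fun_norm_addHaar (μ := (volume : Measure ℂ)) (f := fun r : ℝ => r ^ (-c))]
  rw [Complex.finrank_real_complex]
  have h1 : IntegrableOn (fun y : ℝ => y ^ (1 - c)) (Ioo 0 R) := by
    have := (intervalIntegral.intervalIntegrable_rpow' (a := 0) (b := R) (r := 1 - c) (by linarith))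
    rw [intervalIntegrable_iff_integrableOn_Ioo_of_le hR.le] at this
    exact this
  refine h1.congr_fun ?_ measurableSet_Ioo
  intro y hy
  have hy0 : 0 < y := hy.1
  simp only [smul_eq_mul]
  rw [show (2 - 1 : ℕ) = 1 from rfl, pow_one, sub_eq_add_neg, Real.rpow_add hy0, Real.rpow_one]

/-- product of three truncated powers -/
noncomputable def kp (R a b c : ℝ) (p : Fin 3 → ℂ) : ℝ := kc R a (p 0) * kc R b (p 1) * kc R c (p 2)

lemma kp_integrable (R a b c : ℝ) (hR : 0 < R) (ha : a < 2) (hb : b < 2) (hc : c < 2) :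
    Integrable (kp R a b c) volume := by
  have := Integrable.fintype_prod (ι := Fin 3) (E := ℂ) (𝕜 := ℝ) (μ := fun _ => volume)
    (f := ![kc R a, kc R b, kc R c]) (by
      intro i
      fin_cases i
      · exact kc_integrable R a hR ha
      · exact kc_integrable R b hR hb
      · exact kc_integrable R c hR hc)
  have h2 : (fun x : Fin 3 → ℂ => ∏ i, (![kc R a, kc R b, kc R c] : Fin 3 → ℂ → ℝ) i (x i)) =
      kp R a b c := by
    funext x
    rw [Fin.prod_univ_three]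
    rfl
  rw [h2] at this
  exact this

lemma integrable_comp_linear {F : (Fin 3 → ℂ) → ℝ} (hF : Integrable F volume)
    (L : (Fin 3 → ℂ) ≃ₗ[ℝ] (Fin 3 → ℂ)) : Integrable (fun p => F (L p)) volume := by
  have hdet : LinearMap.det (L : (Fin 3 → ℂ) →ₗ[ℝ] (Fin 3 → ℂ)) ≠ 0 := L.isUnit_det'.ne_zero
  have h1 := Measure.map_linearMap_addHaar_eq_smul_addHaar (volume : Measure (Fin 3 → ℂ)) hdet
  have hc : Continuous L := (L : (Fin 3 → ℂ) →ₗ[ℝ] (Fin 3 → ℂ)).continuous_of_finiteDimensional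
  have h2 : Integrable F (Measure.map L volume) := by
    have h3 : (Measure.map (⇑L) volume : Measure (Fin 3 → ℂ)) =
      Measure.map (⇑(L : (Fin 3 → ℂ) →ₗ[ℝ] (Fin 3 → ℂ))) volume := rfl
    rw [h3, h1]
    exact hF.smul_measure ENNReal.ofReal_ne_top
  exact (integrable_map_measure h2.aestronglyMeasurable hc.aemeasurable).1 h2

/-- `(x, y, z) ↦ (x - ε y, y, δ y - z)`-type maps -/
noncomputable def shear (a b : ℂ) : (Fin 3 → ℂ) ≃ₗ[ℝ] (Fin 3 → ℂ) where
  toFun p := ![p 0 + a * p 1, p 1, p 2 + b * p 1]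
  map_add' p q := by
    funext i; fin_cases i <;> simp <;> ring
  map_smul' r p := by
    funext i; fin_cases i <;> simp <;> ring
  invFun p := ![p 0 - a * p 1, p 1, p 2 - b * p 1]
  left_inv p := by
    funext i; fin_cases i <;> simp
  right_inv p := by
    funext i; fin_cases i <;> simp

/-- the absolute value of the polynomial -/
noncomputable def nf (p : Fin 3 → ℂ) : ℝ :=
  ‖p 0‖ ^ 9 * ‖p 0 - p 1‖ ^ 3 * ‖p 1‖ ^ 2 * ‖p 1 - p 2‖ ^ 2 * ‖p 2‖ ^ 2

lemma nf_nonneg (p : Fin 3 → ℂ) : 0 ≤ nf p := by unfold nf; positivity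

lemma two_pow_bound {X W Y a b t : ℝ} (hX : 0 < X) (hW : 0 < W) (hY : 0 < Y) (h : Y ≤ X + W)
    (ha : t ≤ a) (hb : t ≤ b) (ht : 0 ≤ t) :
    X ^ (-a) * W ^ (-b) ≤ 2 ^ t * Y ^ (-t) * (X ^ (-(a + b - t)) + W ^ (-(a + b - t))) := by
  -- by symmetry-like case split
  have key : ∀ m M c d : ℝ, 0 < m → m ≤ M → Y ≤ 2 * M → t ≤ d →
      m ^ (-c) * M ^ (-d) ≤ 2 ^ t * Y ^ (-t) * m ^ (-(c + d - t)) := by
    intro m M c d hm hmM hYM hd
    have hM : 0 < M := lt_of_lt_of_le hm hmM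
    have h1 : M ^ (-d) = M ^ (-(d - t)) * M ^ (-t) := by
      rw [← Real.rpow_add hM]; congr 1; ring
    have h2 : M ^ (-(d - t)) ≤ m ^ (-(d - t)) :=
      Real.rpow_le_rpow_of_nonpos hm hmM (by linarith)
    have h3 : M ^ (-t) ≤ 2 ^ t * Y ^ (-t) := by
      have h4 : (2 * M) ^ (-t) ≤ Y ^ (-t) := Real.rpow_le_rpow_of_nonpos hY hYM (by linarith)
      rw [Real.mul_rpow (by norm_num) hM.le] at h4
      have h5 : (2:ℝ) ^ t * (2:ℝ) ^ (-t) = 1 := by
        rw [← Real.rpow_add (by norm_num)]; simp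
      calc M ^ (-t) = 2 ^ t * (2 ^ (-t) * M ^ (-t)) := by rw [← mul_assoc, h5, one_mul]
        _ ≤ 2 ^ t * Y ^ (-t) := by gcongr
    rw [h1]
    have h6 : m ^ (-c) * m ^ (-(d - t)) = m ^ (-(c + d - t)) := by
      rw [← Real.rpow_add hm]; congr 1; ring
    calc m ^ (-c) * (M ^ (-(d - t)) * M ^ (-t)) ≤ m ^ (-c) * (m ^ (-(d - t)) * (2 ^ t * Y ^ (-t))) := by
          gcongr
      _ = 2 ^ t * Y ^ (-t) * (m ^ (-c) * m ^ (-(d - t))) := by ring
      _ = _ := by rw [h6]
  rcases le_total X W with hXW | hXW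
  · refine (key X W a b hX hXW (by linarith) hb).trans ?_
    gcongr
    have : 0 ≤ W ^ (-(a + b - t)) := by positivity
    linarith
  · have h1 := key W X b a hW hXW (by linarith) ha
    rw [mul_comm]
    refine h1.trans ?_
    rw [show b + a - t = a + b - t by ring]
    gcongr
    have : 0 ≤ X ^ (-(a + b - t)) := by positivity
    linarith

/-- the weight at the edge of the half plane -/
noncomputable def Wt (p : Fin 3 → ℂ) : ℝ := nf p ^ (-(34/100) : ℝ) * (‖p 0‖ ^ 2 * ‖p 1‖⁻¹)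

lemma Wt_nonneg (p : Fin 3 → ℂ) : 0 ≤ Wt p := by
  unfold Wt
  have := nf_nonneg p
  positivity

lemma nf_eq_zero_iff (p : Fin 3 → ℂ) : nf p = 0 ↔
    p 0 = 0 ∨ p 0 - p 1 = 0 ∨ p 1 = 0 ∨ p 1 - p 2 = 0 ∨ p 2 = 0 := by
  unfold nf
  simp only [mul_eq_zero, pow_eq_zero_iff', norm_eq_zero]
  tauto

lemma Wt_bound (R : ℝ) (p : Fin 3 → ℂ) (hp : p ∈ Metric.ball (0 : Fin 3 → ℂ) R) :
    Wt p ≤ 2 ^ (2/10 : ℝ) * (kp (2 * R) (188/100) (188/100) (136/100) (shear 0 0 p) +
      kp (2 * R) (188/100) (188/100) (136/100) (shear (-1) 0 p) +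
      kp (2 * R) (188/100) (188/100) (136/100) (shear 0 (-1) p) +
      kp (2 * R) (188/100) (188/100) (136/100) (shear (-1) (-1) p)) := by
  by_cases h0 : nf p = 0
  · have : Wt p = 0 := by
      unfold Wt; rw [h0, Real.zero_rpow (by norm_num), zero_mul]
    rw [this]
    have hk : ∀ q, 0 ≤ kp (2 * R) (188/100) (188/100) (136/100) q := fun q => by
      unfold kp
      exact mul_nonneg (mul_nonneg (kc_nonneg _ _ _) (kc_nonneg _ _ _)) (kc_nonneg _ _ _)
    have h2 : (0:ℝ) ≤ 2 ^ (2/10 : ℝ) := by positivity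
    apply mul_nonneg h2
    have := hk (shear 0 0 p)
    have := hk (shear (-1) 0 p)
    have := hk (shear 0 (-1) p)
    have := hk (shear (-1) (-1) p)
    positivity
  · rw [nf_eq_zero_iff] at h0
    push Not at h0
    obtain ⟨hx, hxy, hy, hyz, hz⟩ := h0
    have hX : 0 < ‖p 0‖ := norm_pos_iff.2 hx
    have hY : 0 < ‖p 1‖ := norm_pos_iff.2 hy
    have hZ : 0 < ‖p 2‖ := norm_pos_iff.2 hz
    have hW : 0 < ‖p 0 - p 1‖ := norm_pos_iff.2 hxy
    have hV : 0 < ‖p 1 - p 2‖ := norm_pos_iff.2 hyz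
    have hn : ∀ i, ‖p i‖ < R := by
      have h1 : ‖p‖ < R := by simpa using hp
      intro i
      exact lt_of_le_of_lt (norm_le_pi_norm p i) h1
    have hR : 0 < R := lt_of_lt_of_le hX (hn 0).le
    have b0 : ‖p 0‖ < 2 * R := by linarith [hn 0]
    have b1 : ‖p 1‖ < 2 * R := by linarith [hn 1]
    have b2 : ‖p 2‖ < 2 * R := by linarith [hn 2]
    have b01 : ‖p 0 - p 1‖ < 2 * R := by
      have := norm_sub_le (p 0) (p 1); linarith [hn 0, hn 1]
    have b12 : ‖p 1 - p 2‖ < 2 * R := by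
      have := norm_sub_le (p 1) (p 2); linarith [hn 1, hn 2]
    have b12' : ‖p 2 - p 1‖ < 2 * R := by rw [norm_sub_rev]; exact b12
    set X := ‖p 0‖ with hXd
    set Y := ‖p 1‖ with hYd
    set Z := ‖p 2‖ with hZd
    set W := ‖p 0 - p 1‖ with hWd
    set V := ‖p 1 - p 2‖ with hVd
    have hWt : Wt p = (X ^ (-(106/100) : ℝ) * W ^ (-(102/100) : ℝ)) * Y ^ (-(168/100) : ℝ) *
        (V ^ (-(68/100) : ℝ) * Z ^ (-(68/100) : ℝ)) := by
      unfold Wt nf
      rw [← hXd, ← hYd, ← hZd, ← hWd, ← hVd]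
      have e1 : (X ^ 9) ^ (-(34/100) : ℝ) = X ^ (-(306/100) : ℝ) := by
        rw [← Real.rpow_natCast, ← Real.rpow_mul hX.le]; congr 1; norm_num
      have e2 : (W ^ 3) ^ (-(34/100) : ℝ) = W ^ (-(102/100) : ℝ) := by
        rw [← Real.rpow_natCast, ← Real.rpow_mul hW.le]; congr 1; norm_num
      have e3 : ∀ T : ℝ, 0 < T → (T ^ 2) ^ (-(34/100) : ℝ) = T ^ (-(68/100) : ℝ) := by
        intro T hT
        rw [← Real.rpow_natCast, ← Real.rpow_mul hT.le]; congr 1; norm_num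
      rw [Real.mul_rpow (by positivity) (by positivity), Real.mul_rpow (by positivity) (by positivity),
        Real.mul_rpow (by positivity) (by positivity), Real.mul_rpow (by positivity) (by positivity),
        e1, e2, e3 Y hY, e3 V hV, e3 Z hZ]
      have e4 : X ^ (-(106/100) : ℝ) = X ^ (-(306/100) : ℝ) * X ^ 2 := by
        rw [← Real.rpow_natCast, ← Real.rpow_add hX]; congr 1; norm_num
      have e5 : Y ^ (-(168/100) : ℝ) = Y ^ (-(68/100) : ℝ) * Y⁻¹ := by
        rw [← Real.rpow_neg_one, ← Real.rpow_add hY]; congr 1; norm_num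
      rw [e4, e5]; ring
    have hb1 : X ^ (-(106/100) : ℝ) * W ^ (-(102/100) : ℝ) ≤
        2 ^ (2/10 : ℝ) * Y ^ (-(2/10) : ℝ) * (X ^ (-(188/100) : ℝ) + W ^ (-(188/100) : ℝ)) := by
      have hYXW : Y ≤ X + W := by
        have := norm_sub_le (p 0) (p 0 - p 1)
        simpa using this
      have := two_pow_bound (a := 106/100) (b := 102/100) (t := 2/10) hX hW hY hYXW
        (by norm_num) (by norm_num) (by norm_num)
      rw [show (106/100 + 102/100 - 2/10 : ℝ) = 188/100 by norm_num] at this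
      exact this
    have hb2 : V ^ (-(68/100) : ℝ) * Z ^ (-(68/100) : ℝ) ≤
        Z ^ (-(136/100) : ℝ) + V ^ (-(136/100) : ℝ) := by
      have hYVZ : Y ≤ V + Z := by
        have := norm_add_le (p 1 - p 2) (p 2)
        simpa using this
      have := two_pow_bound (a := 68/100) (b := 68/100) (t := 0) hV hZ hY hYVZ
        (by norm_num) (by norm_num) (by norm_num)
      rw [show (68/100 + 68/100 - 0 : ℝ) = 136/100 by norm_num] at this
      simp only [Real.rpow_zero, neg_zero, one_mul] at this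
      linarith
    have hk : ∀ a b : ℂ, ∀ A B : ℝ, ‖p 0 + a * p 1‖ = A → ‖p 2 + b * p 1‖ = B → A < 2 * R →
        B < 2 * R → kp (2 * R) (188/100) (188/100) (136/100) (shear a b p) =
        A ^ (-(188/100) : ℝ) * Y ^ (-(188/100) : ℝ) * B ^ (-(136/100) : ℝ) := by
      intro a b A B hA hB hA' hB'
      have e0 : shear a b p 0 = p 0 + a * p 1 := rfl
      have e1 : shear a b p 1 = p 1 := rfl
      have e2 : shear a b p 2 = p 2 + b * p 1 := rfl
      unfold kp
      rw [e0, e1, e2, kc_eq (by rw [hA]; exact hA'), kc_eq b1, kc_eq (by rw [hB]; exact hB'), hA, hB]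
    rw [hk 0 0 X Z (by simp [hXd]) (by simp [hZd]) b0 b2,
      hk (-1) 0 W Z (by rw [hWd]; ring_nf) (by simp [hZd]) b01 b2,
      hk 0 (-1) X V (by simp [hXd]) (by rw [hVd, norm_sub_rev]; ring_nf) b0 b12,
      hk (-1) (-1) W V (by rw [hWd]; ring_nf) (by rw [hVd, norm_sub_rev]; ring_nf) b01 b12, hWt]
    have e5 : Y ^ (-(188/100) : ℝ) = Y ^ (-(168/100) : ℝ) * Y ^ (-(2/10) : ℝ) := by
      rw [← Real.rpow_add hY]; congr 1; norm_num
    rw [e5]
    calc (X ^ (-(106/100) : ℝ) * W ^ (-(102/100) : ℝ)) * Y ^ (-(168/100) : ℝ) *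
        (V ^ (-(68/100) : ℝ) * Z ^ (-(68/100) : ℝ))
        ≤ (2 ^ (2/10 : ℝ) * Y ^ (-(2/10) : ℝ) * (X ^ (-(188/100) : ℝ) + W ^ (-(188/100) : ℝ))) *
          Y ^ (-(168/100) : ℝ) * (Z ^ (-(136/100) : ℝ) + V ^ (-(136/100) : ℝ)) := by
          gcongr
      _ = _ := by ring

lemma nf_measurable : Measurable nf := by
  unfold nf
  fun_prop

lemma Wt_measurable : Measurable Wt := by
  unfold Wt
  have := nf_measurable
  fun_prop

theorem Wt_integrableOn (R : ℝ) (hR : 0 < R) :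
    IntegrableOn Wt (Metric.ball (0 : Fin 3 → ℂ) R) volume := by
  have hk : ∀ a b, Integrable (fun p => kp (2 * R) (188/100) (188/100) (136/100) (shear a b p))
      volume := fun a b => integrable_comp_linear (kp_integrable _ _ _ _ (by linarith)
        (by norm_num) (by norm_num) (by norm_num)) _
  have h1 := ((((hk 0 0).add (hk (-1) 0)).add (hk 0 (-1))).add (hk (-1) (-1))).const_mul
    ((2:ℝ) ^ (2/10 : ℝ))
  refine Integrable.mono' h1.integrableOn Wt_measurable.aestronglyMeasurable ?_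
  filter_upwards [ae_restrict_mem measurableSet_ball] with p hp
  rw [Real.norm_of_nonneg (Wt_nonneg p)]
  exact Wt_bound R p hp

end Pool.Agent.H158Z
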