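import Mathlib
import Pool.Agent.H158Z.LocInt

set_option autoImplicit false

open MeasureTheory Set

namespace Pool.Agent.H158Z

/-- `|f|^(2 s)` -/
noncomputable def Ds (s : ℂ) (p : Fin 3 → ℂ) : ℂ := ((nf p : ℝ) : ℂ) ^ (2 * s)

lemma Ds_measurable (s : ℂ) : Measurable (Ds s) := by
  unfold Ds
  have := nf_measurable
  fun_prop

lemma pow_bound {a M δ e : ℝ} (ha : 0 < a) (haM : a ≤ M) (hM : 1 ≤ M) (hδ : 0 < δ)
    (h1 : 2 * δ ≤ e) (h2 : e ≤ 6 * δ) :
    a ^ e ≤ 1 / (2 * δ) + M ^ (6 * δ) * M + 1 ∧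
      a ^ e * |Real.log a| ≤ 1 / (2 * δ) + M ^ (6 * δ) * M + 1 := by
  have hM0 : 0 < M := by linarith
  have hMp : 1 ≤ M ^ (6 * δ) := Real.one_le_rpow hM (by linarith)
  have h3 : 0 < 1 / (2 * δ) := by positivity
  have h4 : M ^ (6 * δ) ≤ M ^ (6 * δ) * M := le_mul_of_one_le_right (by linarith) hM
  rcases le_total a 1 with h | h
  · have h5 : a ^ e ≤ 1 := Real.rpow_le_one ha.le h (by linarith)
    refine ⟨by linarith, ?_⟩
    have h6 : a ^ e ≤ a ^ (2 * δ) := Real.rpow_le_rpow_of_exponent_ge ha h h1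
    have h7 : |Real.log a| ≤ a ^ (-(2 * δ)) / (2 * δ) := by
      have h8 : Real.log a ≤ 0 := Real.log_nonpos ha.le h
      rw [abs_of_nonpos h8, ← Real.log_inv]
      have := Real.log_le_rpow_div (x := a⁻¹) (by positivity) (ε := 2 * δ) (by linarith)
      rw [Real.inv_rpow ha.le, ← Real.rpow_neg ha.le] at this
      exact this
    have h9 : a ^ e * |Real.log a| ≤ a ^ (2 * δ) * (a ^ (-(2 * δ)) / (2 * δ)) := by gcongr
    have h10 : a ^ (2 * δ) * (a ^ (-(2 * δ)) / (2 * δ)) = 1 / (2 * δ) := by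
      rw [← mul_div_assoc, ← Real.rpow_add ha]; simp
    linarith
  · have h5 : a ^ e ≤ M ^ (6 * δ) :=
      (Real.rpow_le_rpow_of_exponent_le h h2).trans (Real.rpow_le_rpow ha.le haM (by linarith))
    refine ⟨by linarith, ?_⟩
    have h6 : |Real.log a| ≤ M := by
      rw [abs_of_nonneg (Real.log_nonneg h)]
      have := Real.log_le_sub_one_of_pos ha
      linarith
    have h7 : a ^ e * |Real.log a| ≤ M ^ (6 * δ) * M := by gcongr
    linarith

/-- bound for the absolute value of the polynomial -/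
noncomputable def MM (R : ℝ) : ℝ := R ^ 9 * (2 * R) ^ 3 * R ^ 2 * (2 * R) ^ 2 * R ^ 2 + 1

lemma nf_le (R : ℝ) (hR : 0 < R) (p : Fin 3 → ℂ) (hp : p ∈ Metric.ball (0 : Fin 3 → ℂ) R) :
    nf p ≤ MM R := by
  have hn : ∀ i, ‖p i‖ ≤ R := by
    have h1 : ‖p‖ < R := by simpa using hp
    intro i
    exact (lt_of_le_of_lt (norm_le_pi_norm p i) h1).le
  have b01 : ‖p 0 - p 1‖ ≤ 2 * R := by
    have := norm_sub_le (p 0) (p 1); linarith [hn 0, hn 1]
  have b12 : ‖p 1 - p 2‖ ≤ 2 * R := by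
    have := norm_sub_le (p 1) (p 2); linarith [hn 1, hn 2]
  unfold nf MM
  have : ‖p 0‖ ^ 9 * ‖p 0 - p 1‖ ^ 3 * ‖p 1‖ ^ 2 * ‖p 1 - p 2‖ ^ 2 * ‖p 2‖ ^ 2 ≤
      R ^ 9 * (2 * R) ^ 3 * R ^ 2 * (2 * R) ^ 2 * R ^ 2 := by
    have h0 := hn 0
    have h1 := hn 1
    have h2 := hn 2
    gcongr
  linarith

lemma MM_one_le (R : ℝ) (hR : 0 < R) : 1 ≤ MM R := by
  unfold MM
  have : 0 ≤ R ^ 9 * (2 * R) ^ 3 * R ^ 2 * (2 * R) ^ 2 * R ^ 2 := by positivity
  linarith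

lemma null_linear (l : (Fin 3 → ℂ) →ₗ[ℝ] ℂ) (q : Fin 3 → ℂ) (hq : l q ≠ 0) :
    ∀ᵐ p : Fin 3 → ℂ, l p ≠ 0 := by
  have h1 : (LinearMap.ker l) ≠ ⊤ := by
    intro h
    apply hq
    have : q ∈ LinearMap.ker l := h ▸ Submodule.mem_top
    exact this
  have h2 := Measure.addHaar_submodule (volume : Measure (Fin 3 → ℂ)) _ h1
  rw [ae_iff]
  have h3 : {a | ¬ l a ≠ 0} = (LinearMap.ker l : Set (Fin 3 → ℂ)) := by
    ext a; simp
  rw [h3]; exact h2

lemma nf_pos_ae : ∀ᵐ p : Fin 3 → ℂ, 0 < nf p := by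
  let P : Fin 3 → ((Fin 3 → ℂ) →ₗ[ℝ] ℂ) := fun i => LinearMap.proj i
  have h0 := null_linear (P 0) (fun _ => 1) (by show (1:ℂ) ≠ 0; exact one_ne_zero)
  have h1 := null_linear (P 0 - P 1) ![1, 0, 0] (by show (1:ℂ) - 0 ≠ 0; simp)
  have h2 := null_linear (P 1) (fun _ => 1) (by show (1:ℂ) ≠ 0; exact one_ne_zero)
  have h3 := null_linear (P 1 - P 2) ![0, 1, 0] (by show (1:ℂ) - 0 ≠ 0; simp)
  have h4 := null_linear (P 2) (fun _ => 1) (by show (1:ℂ) ≠ 0; exact one_ne_zero)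
  filter_upwards [h0, h1, h2, h3, h4] with p a0 a1 a2 a3 a4
  refine lt_of_le_of_ne (nf_nonneg p) (Ne.symm ?_)
  rw [Ne, nf_eq_zero_iff]
  push Not
  exact ⟨a0, a1, a2, a3, a4⟩

variable {g : (Fin 3 → ℂ) → ℂ} {R C : ℝ}

lemma norm_Ds {s : ℂ} {p : Fin 3 → ℂ} (hp : 0 < nf p) : ‖Ds s p‖ = nf p ^ (2 * s.re) := by
  unfold Ds
  rw [Complex.norm_cpow_eq_rpow_re_of_pos hp]
  simp

/-- the constant -/
noncomputable def KK (R δ : ℝ) : ℝ := 1 / (2 * δ) + MM R ^ (6 * δ) * MM R + 1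

lemma Ds_bound {s : ℂ} {p : Fin 3 → ℂ} {δ : ℝ} (hR : 0 < R) (hp : 0 < nf p)
    (hp2 : p ∈ Metric.ball (0 : Fin 3 → ℂ) R) (hδ : 0 < δ)
    (h1 : -(17/100) + δ ≤ s.re) (h2 : s.re ≤ -(17/100) + 3 * δ) :
    ‖Ds s p‖ ≤ KK R δ * nf p ^ (-(34/100) : ℝ) ∧
    ‖Ds s p‖ * |Real.log (nf p)| ≤ KK R δ * nf p ^ (-(34/100) : ℝ) := by
  have hb := pow_bound (a := nf p) (e := 2 * s.re + 34/100) hp (nf_le R hR p hp2) (MM_one_le R hR) hδ
    (by linarith) (by linarith)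
  have h3 : nf p ^ (2 * s.re) = nf p ^ (2 * s.re + 34/100) * nf p ^ (-(34/100) : ℝ) := by
    rw [← Real.rpow_add hp]; congr 1; ring
  rw [norm_Ds hp, h3]
  have h4 : 0 ≤ nf p ^ (-(34/100) : ℝ) := by positivity
  constructor
  · exact mul_le_mul_of_nonneg_right hb.1 h4
  · calc nf p ^ (2 * s.re + 34/100) * nf p ^ (-(34/100) : ℝ) * |Real.log (nf p)|
        = (nf p ^ (2 * s.re + 34/100) * |Real.log (nf p)|) * nf p ^ (-(34/100) : ℝ) := by ring
      _ ≤ _ := mul_le_mul_of_nonneg_right hb.2 h4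

/-- the admissible test weights -/
structure Adm (g : (Fin 3 → ℂ) → ℂ) : Prop where
  meas : Measurable g
  ex : ∃ R C : ℝ, 0 < R ∧ 0 ≤ C ∧ (∀ p, p ∉ Metric.ball (0 : Fin 3 → ℂ) R → g p = 0) ∧
    ∀ p, ‖g p‖ ≤ C * (‖p 0‖ ^ 2 * ‖p 1‖⁻¹)

lemma Adm.integrable {g : (Fin 3 → ℂ) → ℂ} (hg : Adm g) {s : ℂ} (hs : -(17/100) < s.re) :
    Integrable (fun p => Ds s p * g p) volume := by
  obtain ⟨R, C, hR, hC, hsupp, hbd⟩ := hg.ex
  set δ : ℝ := (s.re + 17/100) / 2 with hδ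
  have hδ0 : 0 < δ := by linarith
  have hb : Integrable ((Metric.ball (0 : Fin 3 → ℂ) R).indicator
      (fun p => KK R δ * C * Wt p)) volume := by
    rw [integrable_indicator_iff measurableSet_ball]
    exact (Wt_integrableOn R hR).const_mul _
  refine Integrable.mono' hb ((Ds_measurable s).mul hg.meas).aestronglyMeasurable ?_
  filter_upwards [nf_pos_ae] with p hp
  by_cases hpR : p ∈ Metric.ball (0 : Fin 3 → ℂ) R
  · rw [indicator_of_mem hpR, norm_mul]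
    have h1 := (Ds_bound (s := s) hR hp hpR hδ0 (by linarith) (by linarith)).1
    have h2 := hbd p
    unfold Wt
    have h3 : 0 ≤ KK R δ * nf p ^ (-(34/100) : ℝ) := le_trans (norm_nonneg _) h1
    calc ‖Ds s p‖ * ‖g p‖ ≤ (KK R δ * nf p ^ (-(34/100) : ℝ)) * (C * (‖p 0‖ ^ 2 * ‖p 1‖⁻¹)) := by
          gcongr
      _ = _ := by ring
  · rw [indicator_of_notMem hpR, hsupp p hpR]; simp

/-- the region -/
def UU : Set ℂ := {s | -(17/100) < s.re}

theorem Adm.hasDeriv {g : (Fin 3 → ℂ) → ℂ} (hg : Adm g) {s₁ : ℂ} (hs : s₁ ∈ UU) :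
    HasDerivAt (fun s => ∫ p, Ds s p * g p) (∫ p, Ds s₁ p * (2 * Real.log (nf p)) * g p) s₁ := by
  obtain ⟨R, C, hR, hC, hsupp, hbd⟩ := hg.ex
  have hs' : -(17/100) < s₁.re := hs
  set δ : ℝ := (s₁.re + 17/100) / 2 with hδ
  have hδ0 : 0 < δ := by linarith
  have hb : Integrable ((Metric.ball (0 : Fin 3 → ℂ) R).indicator
      (fun p => 2 * (KK R δ * C * Wt p))) volume := by
    rw [integrable_indicator_iff measurableSet_ball]
    exact ((Wt_integrableOn R hR).const_mul _).const_mul _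
  refine (hasDerivAt_integral_of_dominated_loc_of_deriv_le (μ := volume) (𝕜 := ℂ)
    (F := fun s p => Ds s p * g p)
    (F' := fun s p => Ds s p * (2 * Real.log (nf p)) * g p) (x₀ := s₁)
    (s := Metric.ball s₁ δ) (bound := (Metric.ball (0 : Fin 3 → ℂ) R).indicator
      (fun p => 2 * (KK R δ * C * Wt p)))
    (Metric.ball_mem_nhds s₁ hδ0) ?_ (hg.integrable hs) ?_ ?_ hb ?_).2
  · exact Filter.Eventually.of_forall fun s => ((Ds_measurable s).mul hg.meas).aestronglyMeasurable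
  · have h1 : Measurable (fun p => (2 * Real.log (nf p) : ℂ)) := by
      have := nf_measurable
      fun_prop
    exact (((Ds_measurable s₁).mul h1).mul hg.meas).aestronglyMeasurable
  · filter_upwards [nf_pos_ae] with p hp s hsb
    have hre : |s.re - s₁.re| < δ := by
      have h1 : ‖s - s₁‖ < δ := by simpa [dist_eq_norm] using hsb
      have h2 := Complex.abs_re_le_norm (s - s₁)
      rw [Complex.sub_re] at h2
      linarith
    rw [abs_lt] at hre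
    by_cases hpR : p ∈ Metric.ball (0 : Fin 3 → ℂ) R
    · rw [indicator_of_mem hpR, norm_mul, norm_mul]
      have h1 := (Ds_bound (s := s) hR hp hpR hδ0 (by linarith [hre.1]) (by linarith [hre.2])).2
      have h2 := hbd p
      unfold Wt
      have h3 : 0 ≤ KK R δ * nf p ^ (-(34/100) : ℝ) :=
        le_trans (mul_nonneg (norm_nonneg _) (abs_nonneg _)) h1
      have h4 : ‖(2 * Real.log (nf p) : ℂ)‖ = 2 * |Real.log (nf p)| := by
        rw [norm_mul, Complex.norm_real]; simp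
      rw [h4]
      calc ‖Ds s p‖ * (2 * |Real.log (nf p)|) * ‖g p‖
          = 2 * ((‖Ds s p‖ * |Real.log (nf p)|) * ‖g p‖) := by ring
        _ ≤ 2 * ((KK R δ * nf p ^ (-(34/100) : ℝ)) * (C * (‖p 0‖ ^ 2 * ‖p 1‖⁻¹))) := by
            gcongr
        _ = _ := by ring
    · rw [indicator_of_notMem hpR, hsupp p hpR]; simp
  · filter_upwards [nf_pos_ae] with p hp s _
    have hne : ((nf p : ℝ) : ℂ) ≠ 0 := by exact_mod_cast hp.ne'
    have h1 : HasDerivAt (fun s : ℂ => 2 * s) 2 s := by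
      simpa using (hasDerivAt_id s).const_mul (2 : ℂ)
    have h2 := (h1.const_cpow (c := ((nf p : ℝ) : ℂ)) (Or.inl hne)).mul_const (g p)
    have h3 : Ds s p * (2 * Real.log (nf p)) * g p =
        ((nf p : ℝ) : ℂ) ^ (2 * s) * Complex.log (nf p : ℝ) * 2 * g p := by
      unfold Ds
      rw [← Complex.ofReal_log hp.le]
      ring
    rw [h3]
    exact h2

lemma UU_open : IsOpen UU := isOpen_lt continuous_const Complex.continuous_re

lemma UU_convex : Convex ℝ UU := convex_halfSpace_re_gt _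

theorem Adm.differentiableOn {g : (Fin 3 → ℂ) → ℂ} (hg : Adm g) :
    DifferentiableOn ℂ (fun s => ∫ p, Ds s p * g p) UU := fun _ hs =>
  (hg.hasDeriv hs).differentiableAt.differentiableWithinAt

end Pool.Agent.H158Z
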