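import Mathlib
import Pool.Agent.H158Z.Analytic

set_option autoImplicit false

open MeasureTheory Set

namespace Pool.Agent.H158Z

/-- coordinate vector -/
def sg (j : Fin 3) (c : ℂ) : Fin 3 → ℂ := Pi.single j c

lemma sg_apply (j i : Fin 3) (c : ℂ) : sg j c i = if i = j then c else 0 := by
  unfold sg; rw [Pi.single_apply]

/-- `f` has Wirtinger derivatives `a`, `b` in the `j`-th coordinate at `p` -/
def HW (j : Fin 3) (f : (Fin 3 → ℂ) → ℂ) (a b : ℂ) (p : Fin 3 → ℂ) : Prop :=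
  ∀ c : ℂ, HasLineDerivAt ℝ f (a * c + b * starRingEnd ℂ c) p (sg j c)

variable {j : Fin 3} {f g : (Fin 3 → ℂ) → ℂ} {a b a' b' : ℂ} {p : Fin 3 → ℂ}

lemma HW.congr (h : HW j f a b p) (ha : a = a') (hb : b = b') : HW j f a' b' p := ha ▸ hb ▸ h

lemma HW.mul (hf : HW j f a b p) (hg : HW j g a' b' p) :
    HW j (fun q => f q * g q) (a * g p + f p * a') (b * g p + f p * b') p := by
  intro c
  have h1 : HasDerivAt (fun t : ℝ => f (p + t • sg j c)) (a * c + b * starRingEnd ℂ c) 0 := hf c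
  have h2 : HasDerivAt (fun t : ℝ => g (p + t • sg j c)) (a' * c + b' * starRingEnd ℂ c) 0 :=
    hg c
  have h3 := h1.fun_mul h2
  show HasDerivAt (fun t : ℝ => f (p + t • sg j c) * g (p + t • sg j c)) _ 0
  refine h3.congr_deriv ?_
  simp only [zero_smul, add_zero]
  ring

lemma HW.add (hf : HW j f a b p) (hg : HW j g a' b' p) :
    HW j (fun q => f q + g q) (a + a') (b + b') p := by
  intro c
  have h1 : HasDerivAt (fun t : ℝ => f (p + t • sg j c)) (a * c + b * starRingEnd ℂ c) 0 := hf c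
  have h2 : HasDerivAt (fun t : ℝ => g (p + t • sg j c)) (a' * c + b' * starRingEnd ℂ c) 0 :=
    hg c
  have h3 := h1.fun_add h2
  show HasDerivAt (fun t : ℝ => f (p + t • sg j c) + g (p + t • sg j c)) _ 0
  refine h3.congr_deriv ?_
  ring

lemma HW.sub (hf : HW j f a b p) (hg : HW j g a' b' p) :
    HW j (fun q => f q - g q) (a - a') (b - b') p := by
  intro c
  have h1 : HasDerivAt (fun t : ℝ => f (p + t • sg j c)) (a * c + b * starRingEnd ℂ c) 0 := hf c
  have h2 : HasDerivAt (fun t : ℝ => g (p + t • sg j c)) (a' * c + b' * starRingEnd ℂ c) 0 :=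
    hg c
  have h3 := h1.fun_sub h2
  show HasDerivAt (fun t : ℝ => f (p + t • sg j c) - g (p + t • sg j c)) _ 0
  refine h3.congr_deriv ?_
  ring

lemma HW.const_line (h : ∀ (t : ℝ) (c : ℂ), f (p + t • sg j c) = f p) : HW j f 0 0 p := by
  intro c
  have h1 : (fun t : ℝ => f (p + t • sg j c)) = fun _ => f p := by
    funext t; exact h t c
  show HasDerivAt (fun t : ℝ => f (p + t • sg j c)) _ 0
  rw [h1]
  simpa using hasDerivAt_const (0:ℝ) (f p)

lemma HW.coord_ne {i : Fin 3} (h : i ≠ j) (F : ℂ → ℂ) : HW j (fun q => F (q i)) 0 0 p := by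
  apply HW.const_line
  intro t c
  simp [sg_apply, h]

lemma HW.linear (l : (Fin 3 → ℂ) →ₗ[ℂ] ℂ) :
    HW j (fun q => l q) (l (sg j 1)) 0 p := by
  intro c
  show HasDerivAt (fun t : ℝ => l (p + t • sg j c)) _ 0
  have h1 : (fun t : ℝ => l (p + t • sg j c)) =
      fun t : ℝ => l p + (t : ℂ) * (l (sg j 1) * c) := by
    funext t
    have h2 : (t • sg j c : Fin 3 → ℂ) = ((t : ℂ) * c) • sg j 1 := by
      funext i
      simp only [Pi.smul_apply, sg_apply, smul_eq_mul]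
      split_ifs <;> simp
    rw [map_add, h2, map_smul, smul_eq_mul]
    ring
  rw [h1]
  have h3 : HasDerivAt (fun t : ℝ => (t : ℂ)) 1 0 := Complex.ofRealCLM.hasDerivAt
  have h4 := (h3.mul_const (l (sg j 1) * c)).const_add (l p)
  refine h4.congr_deriv ?_
  simp

lemma HW.coord : HW j (fun q => q j) 1 0 p := by
  have := HW.linear (j := j) (p := p) (LinearMap.proj j)
  simpa [sg_apply] using this

lemma HW.star (hf : HW j f a b p) :
    HW j (fun q => starRingEnd ℂ (f q)) (starRingEnd ℂ b) (starRingEnd ℂ a) p := by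
  intro c
  have h1 : HasDerivAt (fun t : ℝ => f (p + t • sg j c)) (a * c + b * starRingEnd ℂ c) 0 := hf c
  have h2 := Complex.conjCLE.toContinuousLinearMap.hasFDerivAt.comp_hasDerivAt (0:ℝ) h1
  show HasDerivAt (fun t : ℝ => starRingEnd ℂ (f (p + t • sg j c))) _ 0
  refine h2.congr_deriv ?_
  simp
  ring

lemma HW.normpow (l : (Fin 3 → ℂ) →ₗ[ℂ] ℂ) {α : ℝ} (hα : 1 < α) :
    HW j (fun q => ((‖l q‖ ^ α : ℝ) : ℂ))
      (((‖l p‖ ^ α : ℝ) : ℂ) * ((α / 2 : ℝ) * (l (sg j 1) * (l p)⁻¹)))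
      (((‖l p‖ ^ α : ℝ) : ℂ) * ((α / 2 : ℝ) * (starRingEnd ℂ (l (sg j 1)) *
        (starRingEnd ℂ (l p))⁻¹))) p := by
  intro c
  have h1 : HasDerivAt (fun t : ℝ => l (p + t • sg j c)) (l (sg j 1) * c) 0 := by
    have : HasDerivAt (fun t : ℝ => l (p + t • sg j c))
      (l (sg j 1) * c + 0 * starRingEnd ℂ c) 0 := HW.linear (j := j) (p := p) l c
    exact this.congr_deriv (by simp)
  have h2 := (hasFDerivAt_norm_rpow (l p) hα)
  have h2' : HasFDerivAt (fun x : ℂ ↦ ‖x‖ ^ α) ((α * ‖l p‖ ^ (α - 2)) • innerSL ℝ (l p))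
      (l (p + (0:ℝ) • sg j c)) := by simpa using h2
  have h3 := h2'.comp_hasDerivAt (0:ℝ) h1
  have h4 := h3.ofReal_comp
  show HasDerivAt (fun t : ℝ => ((‖l (p + t • sg j c)‖ ^ α : ℝ) : ℂ)) _ 0
  refine h4.congr_deriv ?_
  rw [_root_.smul_apply, innerSL_apply_apply, Complex.inner]
  set w := l p with hw
  set u := l (sg j 1) * c with hu
  have h5 : (((starRingEnd ℂ w * u).re : ℝ) : ℂ) =
      (starRingEnd ℂ w * u + w * starRingEnd ℂ u) / 2 := by
    rw [Complex.re_eq_add_conj]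
    simp
  rw [smul_eq_mul, mul_comm u (starRingEnd ℂ w)]
  push_cast
  rw [h5, hu]
  by_cases h0 : w = 0
  · have : (0:ℝ) ^ α = 0 := Real.zero_rpow (by linarith)
    rw [h0]
    simp [this]
  · have hn : 0 < ‖w‖ := norm_pos_iff.2 h0
    have h6 : ‖w‖ ^ α = ‖w‖ ^ (α - 2) * ‖w‖ ^ 2 := by
      rw [← Real.rpow_natCast, ← Real.rpow_add hn]; congr 1; simp
    have h7 : (((‖w‖ ^ 2 : ℝ)) : ℂ) = w * starRingEnd ℂ w := by
      rw [Complex.mul_conj, Complex.normSq_eq_norm_sq]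
    have hs : starRingEnd ℂ w ≠ 0 := by simpa using h0
    have h8 : ((‖w‖ ^ α : ℝ) : ℂ) = ((‖w‖ ^ (α - 2) : ℝ) : ℂ) * (w * starRingEnd ℂ w) := by
      rw [h6, Complex.ofReal_mul, h7]
    rw [h8, map_mul]
    field_simp

/-- holomorphic Wirtinger derivative -/
noncomputable def dz (j : Fin 3) (φ : (Fin 3 → ℂ) → ℂ) (p : Fin 3 → ℂ) : ℂ :=
  (fderiv ℝ φ p (sg j 1) - Complex.I * fderiv ℝ φ p (sg j Complex.I)) / 2

/-- antiholomorphic Wirtinger derivative -/
noncomputable def db (j : Fin 3) (φ : (Fin 3 → ℂ) → ℂ) (p : Fin 3 → ℂ) : ℂ :=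
  (fderiv ℝ φ p (sg j 1) + Complex.I * fderiv ℝ φ p (sg j Complex.I)) / 2

lemma HW.smooth {φ : (Fin 3 → ℂ) → ℂ} (h : DifferentiableAt ℝ φ p) :
    HW j φ (dz j φ p) (db j φ p) p := by
  intro c
  have h1 := h.hasFDerivAt.hasLineDerivAt (sg j c)
  suffices hk : fderiv ℝ φ p (sg j c) = dz j φ p * c + db j φ p * starRingEnd ℂ c by
    rw [← hk]; exact h1
  have h2 : sg j c = c.re • sg j 1 +
      c.im • sg j Complex.I := by
    funext i
    simp only [Pi.add_apply, Pi.smul_apply, sg_apply]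
    split_ifs
    · apply Complex.ext <;> simp
    · simp
  rw [h2, map_add, map_smul, map_smul]
  unfold dz db
  set u := fderiv ℝ φ p (sg j 1)
  set v := fderiv ℝ φ p (sg j Complex.I)
  have hc : c = (c.re : ℂ) + c.im * Complex.I := (Complex.re_add_im c).symm
  have hc2 : starRingEnd ℂ c = (c.re : ℂ) - c.im * Complex.I := by
    apply Complex.ext <;> simp
  have e1 : c.re • u = (c.re : ℂ) * u := by simp
  have e2 : c.im • v = (c.im : ℂ) * v := by simp
  rw [e1, e2, hc2]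
  have hcc : ∀ A : ℂ, A * c = A * ((c.re : ℂ) + c.im * Complex.I) := fun A => by rw [← hc]
  rw [hcc]
  linear_combination (c.im * v : ℂ) * Complex.I_mul_I

/-- test functions -/
structure TF (φ : (Fin 3 → ℂ) → ℂ) : Prop where
  smooth : ContDiff ℝ (⊤ : ℕ∞) φ
  supp : HasCompactSupport φ

lemma TF.lin {φ : (Fin 3 → ℂ) → ℂ} (h : TF φ) (v : Fin 3 → ℂ) : TF (fun p => fderiv ℝ φ p v) :=
  ⟨(h.smooth.fderiv_right (m := (⊤ : ℕ∞)) (by exact_mod_cast le_top)).clm_apply contDiff_const, by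
    have := h.supp.fderiv (𝕜 := ℝ)
    exact this.mono' (by
      intro p hp
      apply subset_tsupport
      intro h0
      apply hp
      show fderiv ℝ φ p v = 0
      rw [h0]; rfl)⟩

lemma TF.mul_left {φ u : (Fin 3 → ℂ) → ℂ} (h : TF φ) (hu : ContDiff ℝ (⊤ : ℕ∞) u) :
    TF (fun p => u p * φ p) :=
  ⟨hu.mul h.smooth, h.supp.mul_left⟩

lemma TF.add {φ ψ : (Fin 3 → ℂ) → ℂ} (h : TF φ) (h' : TF ψ) : TF (fun p => φ p + ψ p) :=
  ⟨h.smooth.add h'.smooth, h.supp.add h'.supp⟩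

lemma TF.dz {φ : (Fin 3 → ℂ) → ℂ} (h : TF φ) (j : Fin 3) : TF (dz j φ) := by
  have h1 := (h.lin (sg j 1)).mul_left (u := fun _ => 1/2) contDiff_const
  have h2 := (h.lin (sg j Complex.I)).mul_left (u := fun _ => -Complex.I/2) contDiff_const
  have h3 := h1.add h2
  have h4 : Pool.Agent.H158Z.dz j φ = fun p => 1/2 * fderiv ℝ φ p (sg j 1) +
      -Complex.I/2 * fderiv ℝ φ p (sg j Complex.I) := by
    funext p
    unfold Pool.Agent.H158Z.dz
    ring
  rw [h4]; exact h3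

lemma TF.db {φ : (Fin 3 → ℂ) → ℂ} (h : TF φ) (j : Fin 3) : TF (db j φ) := by
  have h1 := (h.lin (sg j 1)).mul_left (u := fun _ => 1/2) contDiff_const
  have h2 := (h.lin (sg j Complex.I)).mul_left (u := fun _ => Complex.I/2) contDiff_const
  have h3 := h1.add h2
  have h4 : Pool.Agent.H158Z.db j φ = fun p => 1/2 * fderiv ℝ φ p (sg j 1) +
      Complex.I/2 * fderiv ℝ φ p (sg j Complex.I) := by
    funext p
    unfold Pool.Agent.H158Z.db
    ring
  rw [h4]; exact h3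

lemma TF.hw {φ : (Fin 3 → ℂ) → ℂ} (h : TF φ) (j : Fin 3) (p : Fin 3 → ℂ) :
    HW j φ (Pool.Agent.H158Z.dz j φ p) (Pool.Agent.H158Z.db j φ p) p :=
  HW.smooth ((h.smooth.differentiable (by simp)) p)

end Pool.Agent.H158Z
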