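import Mathlib
import Pool.Agent.H158Z.Wirt

set_option autoImplicit false

open MeasureTheory Set

namespace Pool.Agent.H158Z

/-- product of the factors `1 + |l|⁻¹` -/
noncomputable def tau (p : Fin 3 → ℂ) : ℝ :=
  (1 + ‖p 0‖⁻¹) * (1 + ‖p 0 - p 1‖⁻¹) * (1 + ‖p 1‖⁻¹) * (1 + ‖p 1 - p 2‖⁻¹) * (1 + ‖p 2‖⁻¹)

lemma le_tau (p : Fin 3 → ℂ) : 1 ≤ tau p ∧ ‖p 0‖⁻¹ ≤ tau p ∧ ‖p 0 - p 1‖⁻¹ ≤ tau p ∧
    ‖p 1‖⁻¹ ≤ tau p ∧ ‖p 1 - p 2‖⁻¹ ≤ tau p ∧ ‖p 2‖⁻¹ ≤ tau p := by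
  unfold tau
  have h0 : 0 ≤ ‖p 0‖⁻¹ := by positivity
  have h1 : 0 ≤ ‖p 0 - p 1‖⁻¹ := by positivity
  have h2 : 0 ≤ ‖p 1‖⁻¹ := by positivity
  have h3 : 0 ≤ ‖p 1 - p 2‖⁻¹ := by positivity
  have h4 : 0 ≤ ‖p 2‖⁻¹ := by positivity
  generalize ‖p 0‖⁻¹ = a at *
  generalize ‖p 0 - p 1‖⁻¹ = b at *
  generalize ‖p 1‖⁻¹ = c at *
  generalize ‖p 1 - p 2‖⁻¹ = d at *
  generalize ‖p 2‖⁻¹ = e at *
  have key : ∀ x y : ℝ, 1 ≤ x → 0 ≤ y → x ≤ x * (1 + y) ∧ y ≤ x * (1 + y) := by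
    intro x y hx hy
    constructor <;> nlinarith
  have k1 := key (1 + a) b (by linarith) h1
  have k2 := key ((1 + a) * (1 + b)) c (by nlinarith [k1.1]) h2
  have k3 := key ((1 + a) * (1 + b) * (1 + c)) d (by linarith [k1.1, k2.1]) h3
  have k4 := key ((1 + a) * (1 + b) * (1 + c) * (1 + d)) e (by linarith [k1.1, k2.1, k3.1]) h4
  refine ⟨?_, ?_, ?_, ?_, ?_, ?_⟩ <;> linarith [k1.1, k1.2, k2.1, k2.2, k3.1, k3.2, k4.1, k4.2]

/-- growth class -/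
structure Gr (k : ℕ) (F : (Fin 3 → ℂ) → ℂ) : Prop where
  meas : Measurable F
  bd : ∀ R : ℝ, ∃ C : ℝ, 0 ≤ C ∧ ∀ p ∈ Metric.ball (0 : Fin 3 → ℂ) R, ‖F p‖ ≤ C * tau p ^ k

lemma Gr.of_cont {F : (Fin 3 → ℂ) → ℂ} (h : Continuous F) : Gr 0 F := by
  refine ⟨h.measurable, fun R => ?_⟩
  obtain ⟨C, hC⟩ := (isCompact_closedBall (0 : Fin 3 → ℂ) R).exists_bound_of_continuousOn
    h.continuousOn
  refine ⟨max C 0, le_max_right _ _, fun p hp => ?_⟩
  simp only [pow_zero, mul_one]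
  exact (hC p (Metric.ball_subset_closedBall hp)).trans (le_max_left _ _)

lemma Gr.mono {k l : ℕ} {F : (Fin 3 → ℂ) → ℂ} (h : Gr k F) (hkl : k ≤ l) : Gr l F := by
  refine ⟨h.meas, fun R => ?_⟩
  obtain ⟨C, hC, hb⟩ := h.bd R
  refine ⟨C, hC, fun p hp => (hb p hp).trans ?_⟩
  exact mul_le_mul_of_nonneg_left (pow_le_pow_right₀ (le_tau p).1 hkl) hC

lemma tau_nonneg (p : Fin 3 → ℂ) : 0 ≤ tau p := by linarith [(le_tau p).1]

lemma Gr.mul {k l : ℕ} {F G : (Fin 3 → ℂ) → ℂ} (hF : Gr k F) (hG : Gr l G) :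
    Gr (k + l) (fun p => F p * G p) := by
  refine ⟨hF.meas.mul hG.meas, fun R => ?_⟩
  obtain ⟨C, hC, hb⟩ := hF.bd R
  obtain ⟨C', hC', hb'⟩ := hG.bd R
  refine ⟨C * C', mul_nonneg hC hC', fun p hp => ?_⟩
  have := tau_nonneg p
  rw [norm_mul]
  calc ‖F p‖ * ‖G p‖ ≤ (C * tau p ^ k) * (C' * tau p ^ l) := by
        gcongr
        · exact hb p hp
        · exact hb' p hp
    _ = _ := by ring

lemma Gr.add {k : ℕ} {F G : (Fin 3 → ℂ) → ℂ} (hF : Gr k F) (hG : Gr k G) :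
    Gr k (fun p => F p + G p) := by
  refine ⟨hF.meas.add hG.meas, fun R => ?_⟩
  obtain ⟨C, hC, hb⟩ := hF.bd R
  obtain ⟨C', hC', hb'⟩ := hG.bd R
  refine ⟨C + C', add_nonneg hC hC', fun p hp => ?_⟩
  calc ‖F p + G p‖ ≤ ‖F p‖ + ‖G p‖ := norm_add_le _ _
    _ ≤ C * tau p ^ k + C' * tau p ^ k := add_le_add (hb p hp) (hb' p hp)
    _ = _ := by ring

lemma Gr.of_inv {F : (Fin 3 → ℂ) → ℂ} (hm : Measurable F) (h : ∀ p, ‖F p‖ ≤ tau p) : Gr 1 F :=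
  ⟨hm, fun R => ⟨1, zero_le_one, fun p _ => by simpa using h p⟩⟩

/-- bounded support -/
def Supp (F : (Fin 3 → ℂ) → ℂ) : Prop :=
  ∃ R : ℝ, 0 < R ∧ ∀ p, p ∉ Metric.ball (0 : Fin 3 → ℂ) R → F p = 0

lemma Supp.mul_left {F G : (Fin 3 → ℂ) → ℂ} (h : Supp G) : Supp (fun p => F p * G p) := by
  obtain ⟨R, hR, h⟩ := h
  exact ⟨R, hR, fun p hp => by simp only [h p hp, mul_zero]⟩

lemma Supp.mul_right {F G : (Fin 3 → ℂ) → ℂ} (h : Supp F) : Supp (fun p => F p * G p) := by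
  obtain ⟨R, hR, h⟩ := h
  exact ⟨R, hR, fun p hp => by simp only [h p hp, zero_mul]⟩

lemma Supp.add {F G : (Fin 3 → ℂ) → ℂ} (h : Supp F) (h' : Supp G) : Supp (fun p => F p + G p) := by
  obtain ⟨R, hR, h⟩ := h
  obtain ⟨R', hR', h'⟩ := h'
  refine ⟨max R R', lt_max_of_lt_left hR, fun p hp => ?_⟩
  have h1 : p ∉ Metric.ball (0 : Fin 3 → ℂ) R := fun hc => hp
    (Metric.ball_subset_ball (le_max_left _ _) hc)
  have h2 : p ∉ Metric.ball (0 : Fin 3 → ℂ) R' := fun hc => hp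
    (Metric.ball_subset_ball (le_max_right _ _) hc)
  simp only [h p h1, h' p h2, add_zero]

lemma TF.supp' {φ : (Fin 3 → ℂ) → ℂ} (h : TF φ) : Supp φ := by
  obtain ⟨R, hR⟩ := h.supp.isCompact.isBounded.subset_ball (0 : Fin 3 → ℂ)
  refine ⟨max R 1, lt_max_of_lt_right one_pos, fun p hp => ?_⟩
  by_contra hne
  exact hp (Metric.ball_subset_ball (le_max_left _ _) (hR (subset_tsupport _ hne)))

lemma TF.gr {φ : (Fin 3 → ℂ) → ℂ} (h : TF φ) : Gr 0 φ := Gr.of_cont h.smooth.continuous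

/-- real power -/
noncomputable def DD (s : ℝ) (p : Fin 3 → ℂ) : ℂ := ((nf p ^ (2 * s) : ℝ) : ℂ)

lemma Ds_real (s : ℝ) (p : Fin 3 → ℂ) : Ds (s : ℂ) p = DD s p := by
  unfold Ds DD
  rw [Complex.ofReal_cpow (nf_nonneg p)]
  push_cast
  rfl

lemma DD_measurable (s : ℝ) : Measurable (DD s) := by
  unfold DD
  have := nf_measurable
  fun_prop

lemma DD_zero {s : ℝ} (hs : 1 < s) {p : Fin 3 → ℂ} (h : nf p = 0) : DD s p = 0 := by
  unfold DD
  rw [h, Real.zero_rpow (by linarith), Complex.ofReal_zero]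

lemma DD_tau {s : ℝ} (hs : 1 < s) (R : ℝ) (hR : 0 < R) : ∃ C : ℝ, 0 ≤ C ∧
    ∀ p ∈ Metric.ball (0 : Fin 3 → ℂ) R, ‖DD s p‖ * tau p ^ 4 ≤ C := by
  refine ⟨MM R ^ (2 * s - 2) * (((2 * R) ^ 14 * (2 * R) ^ 2) * (2 * R + 1) ^ 20), ?_, ?_⟩
  · have := MM_one_le R hR
    positivity
  intro p hp
  by_cases h0 : nf p = 0
  · rw [DD_zero hs h0]
    have := MM_one_le R hR
    simp only [norm_zero, zero_mul]
    positivity
  have hpos : 0 < nf p := lt_of_le_of_ne (nf_nonneg p) (Ne.symm h0)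
  have hM := nf_le R hR p hp
  rw [nf_eq_zero_iff] at h0
  push Not at h0
  obtain ⟨hx, hxy, hy, hyz, hz⟩ := h0
  have hX : 0 < ‖p 0‖ := norm_pos_iff.2 hx
  have hY : 0 < ‖p 1‖ := norm_pos_iff.2 hy
  have hZ : 0 < ‖p 2‖ := norm_pos_iff.2 hz
  have hW : 0 < ‖p 0 - p 1‖ := norm_pos_iff.2 hxy
  have hV : 0 < ‖p 1 - p 2‖ := norm_pos_iff.2 hyz
  have hn : ∀ i, ‖p i‖ < R := by
    have h1 : ‖p‖ < R := by simpa using hp
    intro i
    exact lt_of_le_of_lt (norm_le_pi_norm p i) h1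
  have b0 : ‖p 0‖ ≤ 2 * R := by linarith [hn 0]
  have b1 : ‖p 1‖ ≤ 2 * R := by linarith [hn 1]
  have b2 : ‖p 2‖ ≤ 2 * R := by linarith [hn 2]
  have b01 : ‖p 0 - p 1‖ ≤ 2 * R := by
    have := norm_sub_le (p 0) (p 1); linarith [hn 0, hn 1]
  have b12 : ‖p 1 - p 2‖ ≤ 2 * R := by
    have := norm_sub_le (p 1) (p 2); linarith [hn 1, hn 2]
  have h1 : ‖DD s p‖ = nf p ^ (2 * s - 2) * nf p ^ 2 := by
    unfold DD
    rw [Complex.norm_real, Real.norm_of_nonneg (by positivity), ← Real.rpow_natCast,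
      ← Real.rpow_add hpos]
    congr 1
    push_cast; ring
  have h2 : nf p ^ (2 * s - 2) ≤ MM R ^ (2 * s - 2) :=
    Real.rpow_le_rpow hpos.le hM (by linarith)
  have h3 : nf p ^ 2 * tau p ^ 4 ≤ ((2 * R) ^ 14 * (2 * R) ^ 2) * (2 * R + 1) ^ 20 := by
    have e : nf p ^ 2 * tau p ^ 4 = (‖p 0‖ ^ 14 * ‖p 0 - p 1‖ ^ 2) *
        ((‖p 0‖ + 1) * (‖p 0 - p 1‖ + 1) * (‖p 1‖ + 1) * (‖p 1 - p 2‖ + 1) * (‖p 2‖ + 1)) ^ 4 := by
      unfold nf tau
      have k : ∀ t : ℝ, 0 < t → t + 1 = t * (1 + t⁻¹) := by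
        intro t ht; field_simp
      rw [k _ hX, k _ hY, k _ hZ, k _ hW, k _ hV]
      generalize 1 + ‖p 0‖⁻¹ = x'
      generalize 1 + ‖p 1‖⁻¹ = y'
      generalize 1 + ‖p 2‖⁻¹ = z'
      generalize 1 + ‖p 0 - p 1‖⁻¹ = w'
      generalize 1 + ‖p 1 - p 2‖⁻¹ = v'
      ring
    rw [e]
    have e2 : ((2 * R + 1) : ℝ) ^ 20 =
        ((2 * R + 1) * (2 * R + 1) * (2 * R + 1) * (2 * R + 1) * (2 * R + 1)) ^ 4 := by
      generalize 2 * R + 1 = r
      ring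
    rw [e2]
    gcongr
  rw [h1]
  have hM1 := MM_one_le R hR
  calc nf p ^ (2 * s - 2) * nf p ^ 2 * tau p ^ 4 = nf p ^ (2 * s - 2) * (nf p ^ 2 * tau p ^ 4) := by ring
    _ ≤ _ := by
      have := tau_nonneg p
      apply mul_le_mul h2 h3 (by positivity) (by positivity)

theorem integrable_DD {s : ℝ} (hs : 1 < s) {F : (Fin 3 → ℂ) → ℂ} (hF : Gr 4 F) (hsF : Supp F) :
    Integrable (fun p => DD s p * F p) volume := by
  obtain ⟨R, hR, hsupp⟩ := hsF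
  obtain ⟨C, hC, hb⟩ := hF.bd R
  obtain ⟨C', hC', hb'⟩ := DD_tau hs R hR
  have h1 : Integrable ((Metric.ball (0 : Fin 3 → ℂ) R).indicator (fun _ => C * C')) volume := by
    rw [integrable_indicator_iff measurableSet_ball]
    exact integrableOn_const (measure_ball_lt_top).ne
  refine Integrable.mono' h1 ((DD_measurable s).mul hF.meas).aestronglyMeasurable ?_
  refine Filter.Eventually.of_forall fun p => ?_
  by_cases hp : p ∈ Metric.ball (0 : Fin 3 → ℂ) R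
  · rw [indicator_of_mem hp, norm_mul]
    calc ‖DD s p‖ * ‖F p‖ ≤ ‖DD s p‖ * (C * tau p ^ 4) :=
          mul_le_mul_of_nonneg_left (hb p hp) (norm_nonneg _)
      _ = C * (‖DD s p‖ * tau p ^ 4) := by ring
      _ ≤ C * C' := mul_le_mul_of_nonneg_left (hb' p hp) hC
  · rw [indicator_of_notMem hp, hsupp p hp]; simp

/-- logarithmic derivative of the polynomial in the direction `c` -/
noncomputable def ell (s : ℝ) (c : Fin 3 → ℂ) (p : Fin 3 → ℂ) : ℂ :=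
  9 * s * (c 0 * (p 0)⁻¹) + 3 * s * ((c 0 - c 1) * (p 0 - p 1)⁻¹) + 2 * s * (c 1 * (p 1)⁻¹) +
    2 * s * ((c 1 - c 2) * (p 1 - p 2)⁻¹) + 2 * s * (c 2 * (p 2)⁻¹)

lemma ell_gr (s : ℝ) (c : Fin 3 → ℂ) : Gr 1 (ell s c) := by
  have g0 : Gr 1 (fun p => (p 0)⁻¹) := Gr.of_inv (by fun_prop) fun p => by
    rw [norm_inv]; exact (le_tau p).2.1
  have g1 : Gr 1 (fun p => (p 0 - p 1)⁻¹) := Gr.of_inv (by fun_prop) fun p => by
    rw [norm_inv]; exact (le_tau p).2.2.1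
  have g2 : Gr 1 (fun p => (p 1)⁻¹) := Gr.of_inv (by fun_prop) fun p => by
    rw [norm_inv]; exact (le_tau p).2.2.2.1
  have g3 : Gr 1 (fun p => (p 1 - p 2)⁻¹) := Gr.of_inv (by fun_prop) fun p => by
    rw [norm_inv]; exact (le_tau p).2.2.2.2.1
  have g4 : Gr 1 (fun p => (p 2)⁻¹) := Gr.of_inv (by fun_prop) fun p => by
    rw [norm_inv]; exact (le_tau p).2.2.2.2.2
  have hc : ∀ r : ℂ, Gr 0 (fun _ => r) := fun r => Gr.of_cont continuous_const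
  have := (((((hc (9 * s * c 0)).mul g0).add ((hc (3 * s * (c 0 - c 1))).mul g1)).add
    ((hc (2 * s * c 1)).mul g2)).add ((hc (2 * s * (c 1 - c 2))).mul g3)).add
    ((hc (2 * s * c 2)).mul g4)
  have e : ell s c = fun p => 9 * s * c 0 * (p 0)⁻¹ + 3 * s * (c 0 - c 1) * (p 0 - p 1)⁻¹ +
      2 * s * c 1 * (p 1)⁻¹ + 2 * s * (c 1 - c 2) * (p 1 - p 2)⁻¹ + 2 * s * c 2 * (p 2)⁻¹ := by
    funext p; unfold ell; ring
  rw [e]
  exact this

lemma Gr.star {k : ℕ} {F : (Fin 3 → ℂ) → ℂ} (hF : Gr k F) :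
    Gr k (fun p => starRingEnd ℂ (F p)) := by
  refine ⟨Complex.continuous_conj.measurable.comp hF.meas, fun R => ?_⟩
  obtain ⟨C, hC, hb⟩ := hF.bd R
  exact ⟨C, hC, fun p hp => by rw [RCLike.norm_conj]; exact hb p hp⟩

lemma DD_hw {s : ℝ} (hs : 1 < s) (j : Fin 3) (p : Fin 3 → ℂ) :
    HW j (DD s) (DD s p * ell s (sg j 1) p) (DD s p * starRingEnd ℂ (ell s (sg j 1) p)) p := by
  let P : Fin 3 → ((Fin 3 → ℂ) →ₗ[ℂ] ℂ) := fun i => LinearMap.proj i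
  have e : DD s = fun p => ((‖P 0 p‖ ^ (18 * s) : ℝ) : ℂ) * ((‖(P 0 - P 1) p‖ ^ (6 * s) : ℝ) : ℂ) *
      ((‖P 1 p‖ ^ (4 * s) : ℝ) : ℂ) * ((‖(P 1 - P 2) p‖ ^ (4 * s) : ℝ) : ℂ) *
      ((‖P 2 p‖ ^ (4 * s) : ℝ) : ℂ) := by
    funext p
    show ((nf p ^ (2 * s) : ℝ) : ℂ) = ((‖p 0‖ ^ (18 * s) : ℝ) : ℂ) *
      ((‖p 0 - p 1‖ ^ (6 * s) : ℝ) : ℂ) *
      ((‖p 1‖ ^ (4 * s) : ℝ) : ℂ) * ((‖p 1 - p 2‖ ^ (4 * s) : ℝ) : ℂ) *
      ((‖p 2‖ ^ (4 * s) : ℝ) : ℂ)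
    have hk : ∀ (t : ℝ) (n : ℕ) (r : ℝ), 0 ≤ t → (n : ℝ) * (2 * s) = r →
        (t ^ n) ^ (2 * s) = t ^ r := by
      intro t n r ht hr
      rw [← Real.rpow_natCast, ← Real.rpow_mul ht, hr]
    unfold nf
    rw [Real.mul_rpow (by positivity) (by positivity), Real.mul_rpow (by positivity) (by positivity),
        Real.mul_rpow (by positivity) (by positivity), Real.mul_rpow (by positivity) (by positivity),
        hk _ 9 (18 * s) (norm_nonneg _) (by push_cast; ring),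
        hk _ 3 (6 * s) (norm_nonneg _) (by push_cast; ring),
        hk _ 2 (4 * s) (norm_nonneg _) (by push_cast; ring),
        hk _ 2 (4 * s) (norm_nonneg _) (by push_cast; ring),
        hk _ 2 (4 * s) (norm_nonneg _) (by push_cast; ring)]
    push_cast
    rfl
  have h := ((((HW.normpow (j := j) (p := p) (P 0) (α := 18 * s) (by linarith)).mul
    (HW.normpow (j := j) (p := p) (P 0 - P 1) (α := 6 * s) (by linarith))).mul
    (HW.normpow (j := j) (p := p) (P 1) (α := 4 * s) (by linarith))).mul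
    (HW.normpow (j := j) (p := p) (P 1 - P 2) (α := 4 * s) (by linarith))).mul
    (HW.normpow (j := j) (p := p) (P 2) (α := 4 * s) (by linarith))
  have ec : ∀ i, starRingEnd ℂ (sg j 1 i) = sg j 1 i := by
    intro i; rw [sg_apply]; split_ifs <;> simp
  rw [e]
  refine h.congr ?_ ?_
  · simp only [LinearMap.sub_apply]
    simp only [P, LinearMap.proj_apply]
    unfold ell
    push_cast
    ring
  · simp only [LinearMap.sub_apply]
    simp only [P, LinearMap.proj_apply]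
    unfold ell
    simp only [map_add, map_mul, map_sub, map_inv₀, ec, Complex.conj_ofReal]
    have e9 : starRingEnd ℂ (9 : ℂ) = 9 := Complex.conj_ofNat 9
    have e3 : starRingEnd ℂ (3 : ℂ) = 3 := Complex.conj_ofNat 3
    have e2 : starRingEnd ℂ (2 : ℂ) = 2 := Complex.conj_ofNat 2
    rw [e9, e3, e2]
    push_cast
    ring

theorem ibp {j : Fin 3} {G a b : (Fin 3 → ℂ) → ℂ} (h : ∀ p, HW j G (a p) (b p) p)
    (hG : Integrable G volume) (ha : Integrable a volume) (hb : Integrable b volume) :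
    ∫ p, a p = 0 ∧ ∫ p, b p = 0 := by
  have key : ∀ c : ℂ, ∫ p, (a p * c + b p * starRingEnd ℂ c) = 0 := by
    intro c
    have h1 := integral_bilinear_hasLineDerivAt_right_eq_neg_left_of_integrable
      (μ := (volume : Measure (Fin 3 → ℂ)))
      (f := G) (f' := fun p => a p * c + b p * starRingEnd ℂ c) (g := fun _ => (1:ℂ))
      (g' := fun _ => (0:ℂ)) (v := sg j c) (B := ContinuousLinearMap.mul ℝ ℂ)
      (by
        simp only [ContinuousLinearMap.mul_apply', mul_one]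
        exact (ha.mul_const c).add (hb.mul_const _)) (by simp)
      (by simpa using hG) (fun p _ => h p c) (fun p _ => by
        show HasDerivAt (fun _ : ℝ => (1:ℂ)) 0 0
        exact hasDerivAt_const _ _)
    simp only [ContinuousLinearMap.mul_apply', mul_zero, integral_zero, mul_one] at h1
    exact neg_eq_zero.1 h1.symm
  have k1 := key 1
  have k2 := key Complex.I
  simp only [map_one, mul_one, Complex.conj_I] at k1 k2
  rw [integral_add ha hb] at k1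
  rw [integral_add (ha.mul_const _) (hb.mul_const _), integral_mul_const, integral_mul_const] at k2
  have k3 : (∫ p, a p) - ∫ p, b p = 0 := by
    have h4 : Complex.I * ((∫ p, a p) - ∫ p, b p) = 0 := by linear_combination k2
    exact (mul_eq_zero.1 h4).resolve_left Complex.I_ne_zero
  constructor
  · linear_combination (k1 + k3) / 2
  · linear_combination (k1 - k3) / 2

theorem ibpD {s : ℝ} (hs : 1 < s) {j : Fin 3} {h ah bh : (Fin 3 → ℂ) → ℂ}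
    (hh : ∀ p, HW j h (ah p) (bh p) p) (gh : Gr 3 h) (gah : Gr 4 ah) (gbh : Gr 4 bh)
    (sh : Supp h) (sah : Supp ah) (sbh : Supp bh) :
    ∫ p, DD s p * (ell s (sg j 1) p * h p + ah p) = 0 ∧
      ∫ p, DD s p * (starRingEnd ℂ (ell s (sg j 1) p) * h p + bh p) = 0 := by
  have e := ell_gr s (sg j 1)
  have i1 := integrable_DD hs (gh.mono (by norm_num)) sh
  have i2 := integrable_DD hs (((e.mul gh).mono (by norm_num) : Gr 4 _).add gah) (sh.mul_left.add sah)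
  have i3 := integrable_DD hs (((e.star.mul gh).mono (by norm_num) : Gr 4 _).add gbh)
    (sh.mul_left.add sbh)
  refine ibp (j := j) (G := fun p => DD s p * h p) (fun p => ?_) i1 i2 i3
  refine ((DD_hw hs j p).mul (hh p)).congr ?_ ?_ <;> ring

end Pool.Agent.H158Z
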