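import Mathlib
import Pool.Agent.H158Z.Ibp

set_option autoImplicit false
set_option maxHeartbeats 1000000

open MeasureTheory Set

namespace Pool.Agent.H158Z

/-- the functional for real `s` -/
noncomputable def II (s : ℝ) (F : (Fin 3 → ℂ) → ℂ) : ℂ := ∫ p, DD s p * F p

/-- integrand is nice -/
def Ok (F : (Fin 3 → ℂ) → ℂ) : Prop := Gr 4 F ∧ Supp F

lemma Ok.int {F : (Fin 3 → ℂ) → ℂ} (h : Ok F) {s : ℝ} (hs : 1 < s) :
    Integrable (fun p => DD s p * F p) volume := integrable_DD hs h.1 h.2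

lemma iadd {f g : (Fin 3 → ℂ) → ℂ} (hf : Integrable f volume) (hg : Integrable g volume) :
    Integrable (fun p => f p + g p) volume := hf.add hg

lemma int_add {f g : (Fin 3 → ℂ) → ℂ} (hf : Integrable f volume) (hg : Integrable g volume) :
    ∫ p, (f p + g p) = (∫ p, f p) + ∫ p, g p := integral_add hf hg

lemma lin4 {s : ℝ} (hs : 1 < s) {L F1 F2 F3 F4 : (Fin 3 → ℂ) → ℂ} (c1 c2 c3 c4 : ℂ)
    (hL : ∫ p, L p = 0)
    (h : ∀ p, L p = c1 * (DD s p * F1 p) + c2 * (DD s p * F2 p) + c3 * (DD s p * F3 p) +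
      c4 * (DD s p * F4 p)) (o1 : Ok F1) (o2 : Ok F2) (o3 : Ok F3) (o4 : Ok F4) :
    c1 * II s F1 + c2 * II s F2 + c3 * II s F3 + c4 * II s F4 = 0 := by
  have i1 := (o1.int hs).const_mul c1
  have i2 := (o2.int hs).const_mul c2
  have i3 := (o3.int hs).const_mul c3
  have i4 := (o4.int hs).const_mul c4
  have hL' : ∫ p, (c1 * (DD s p * F1 p) + c2 * (DD s p * F2 p) + c3 * (DD s p * F3 p) +
      c4 * (DD s p * F4 p)) = 0 := by
    rw [← hL]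
    congr 1
    funext p
    exact (h p).symm
  rw [int_add (iadd (iadd i1 i2) i3) i4, int_add (iadd i1 i2) i3, int_add i1 i2,
    integral_const_mul, integral_const_mul, integral_const_mul, integral_const_mul] at hL'
  exact hL'

lemma HW.coord_star {j : Fin 3} {p : Fin 3 → ℂ} : HW j (fun q => starRingEnd ℂ (q j)) 0 1 p :=
  HW.coord.star.congr (by simp) (by simp)

theorem ibpD' {s : ℝ} (hs : 1 < s) {j : Fin 3} {h ah bh : (Fin 3 → ℂ) → ℂ}
    (hh : ∀ p, HW j h (ah p) (bh p) p) (gh : Gr 3 h) (gah : Gr 4 ah) (gbh : Gr 4 bh)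
    (sh : Supp h) (sah : Supp ah) (sbh : Supp bh) :
    (∫ p, DD s p * (ell s (sg j 1) p * h p + ah p) = 0 ∧
      ∫ p, DD s p * (starRingEnd ℂ (ell s (sg j 1) p) * h p + bh p) = 0) ∧
    Integrable (fun p => DD s p * (ell s (sg j 1) p * h p + ah p)) volume ∧
    Integrable (fun p => DD s p * (starRingEnd ℂ (ell s (sg j 1) p) * h p + bh p)) volume := by
  have e := ell_gr s (sg j 1)
  exact ⟨ibpD hs hh gh gah gbh sh sah sbh,
    integrable_DD hs (((e.mul gh).mono (by norm_num) : Gr 4 _).add gah) (sh.mul_left.add sah),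
    integrable_DD hs (((e.star.mul gh).mono (by norm_num) : Gr 4 _).add gbh) (sh.mul_left.add sbh)⟩

/-- weight times test function: integration by parts -/
theorem ibpT {s : ℝ} (hs : 1 < s) {j : Fin 3} {u au bu φ : (Fin 3 → ℂ) → ℂ} (hφ : TF φ)
    (hu : ∀ p, HW j u (au p) (bu p) p) (gu : Gr 2 u) (gau : Gr 2 au) (gbu : Gr 2 bu) :
    (∫ p, DD s p * (ell s (sg j 1) p * (u p * φ p) + (au p * φ p + u p * dz j φ p)) = 0 ∧
      ∫ p, DD s p * (starRingEnd ℂ (ell s (sg j 1) p) * (u p * φ p) +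
        (bu p * φ p + u p * db j φ p)) = 0) ∧
    Integrable (fun p => DD s p * (ell s (sg j 1) p * (u p * φ p) +
      (au p * φ p + u p * dz j φ p))) volume ∧
    Integrable (fun p => DD s p * (starRingEnd ℂ (ell s (sg j 1) p) * (u p * φ p) +
      (bu p * φ p + u p * db j φ p))) volume := by
  have g0 := hφ.gr
  have g1 := (hφ.dz j).gr
  have g2 := (hφ.db j).gr
  have s0 := hφ.supp'
  have s1 := (hφ.dz j).supp'
  have s2 := (hφ.db j).supp'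
  refine ibpD' hs (h := fun p => u p * φ p) (ah := fun p => au p * φ p + u p * dz j φ p)
    (bh := fun p => bu p * φ p + u p * db j φ p) (fun p => (hu p).mul (hφ.hw j p)) ?_ ?_ ?_ ?_ ?_ ?_
  · exact (gu.mul g0).mono (by norm_num)
  · exact ((gau.mul g0).add (gu.mul g1)).mono (by norm_num)
  · exact ((gbu.mul g0).add (gu.mul g2)).mono (by norm_num)
  · exact s0.mul_left
  · exact s0.mul_left.add s1.mul_left
  · exact s0.mul_left.add s2.mul_left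

lemma nz {p : Fin 3 → ℂ} (h : nf p ≠ 0) : p 0 ≠ 0 ∧ p 0 - p 1 ≠ 0 ∧ p 1 ≠ 0 ∧ p 1 - p 2 ≠ 0 ∧
    p 2 ≠ 0 := by
  rw [Ne, nf_eq_zero_iff] at h
  push Not at h
  exact h

lemma gyi : Gr 1 (fun p => (p 1)⁻¹) := Gr.of_inv (by fun_prop) fun p => by
    rw [norm_inv]; exact (le_tau p).2.2.2.1

lemma gyb : Gr 1 (fun p => (starRingEnd ℂ (p 1))⁻¹) := by
  have := gyi.star
  simpa only [map_inv₀] using this

lemma gxyb : Gr 1 (fun p => (starRingEnd ℂ (p 0) - starRingEnd ℂ (p 1))⁻¹) := by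
  have g1 : Gr 1 (fun p => (p 0 - p 1)⁻¹) := Gr.of_inv (by fun_prop) fun p => by
    rw [norm_inv]; exact (le_tau p).2.2.1
  have := g1.star
  simpa only [map_inv₀, map_sub] using this

lemma gc {F : (Fin 3 → ℂ) → ℂ} (h : Continuous F) : Gr 0 F := Gr.of_cont h

lemma okT {u φ : (Fin 3 → ℂ) → ℂ} (gu : Gr 4 u) (hφ : TF φ) : Ok (fun p => u p * φ p) :=
  ⟨(gu.mul hφ.gr), hφ.supp'.mul_left⟩

lemma ell0 (s : ℝ) (p : Fin 3 → ℂ) : ell s (sg 0 1) p = 9 * s * (p 0)⁻¹ + 3 * s * (p 0 - p 1)⁻¹ := by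
  unfold ell; simp [sg_apply]

lemma ell1 (s : ℝ) (p : Fin 3 → ℂ) : ell s (sg 1 1) p =
    -(3 * s * (p 0 - p 1)⁻¹) + 2 * s * (p 1)⁻¹ + 2 * s * (p 1 - p 2)⁻¹ := by
  unfold ell; simp [sg_apply]

lemma ell2 (s : ℝ) (p : Fin 3 → ℂ) : ell s (sg 2 1) p =
    -(2 * s * (p 1 - p 2)⁻¹) + 2 * s * (p 2)⁻¹ := by
  unfold ell; simp [sg_apply]

lemma conj_ell0 (s : ℝ) (p : Fin 3 → ℂ) : starRingEnd ℂ (ell s (sg 0 1) p) =
    9 * s * (starRingEnd ℂ (p 0))⁻¹ + 3 * s * (starRingEnd ℂ (p 0) - starRingEnd ℂ (p 1))⁻¹ := by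
  rw [ell0]
  simp only [map_add, map_mul, map_sub, map_inv₀, Complex.conj_ofReal]
  have e9 : starRingEnd ℂ (9 : ℂ) = 9 := Complex.conj_ofNat 9
  have e3 : starRingEnd ℂ (3 : ℂ) = 3 := Complex.conj_ofNat 3
  rw [e9, e3]

/-- F1 -/
lemma F1 {s : ℝ} (hs : 1 < s) {φ : (Fin 3 → ℂ) → ℂ} (hφ : TF φ) :
    (9 * s + 1) * II s (fun p => φ p) =
      (12 * s + 2) * II s (fun p => (p 0 * (p 1)⁻¹) * φ p) +
        II s (fun p => (p 0 * (p 0 - p 1) * (p 1)⁻¹) * dz 0 φ p) := by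
  have hu : ∀ p : Fin 3 → ℂ, HW 0 (fun q => (q 0 * (q 0 - q 1)) * (q 1)⁻¹)
      ((2 * p 0 - p 1) * (p 1)⁻¹) 0 p := fun p =>
    ((HW.coord.mul (HW.coord.sub (HW.coord_ne (i := 1) (by decide) (fun w => w)))).mul
      (HW.coord_ne (i := 1) (by decide) (fun w => w⁻¹))).congr (by ring) (by ring)
  have h := ibpT hs hφ hu (((gc (by fun_prop)).mul gyi).mono (by norm_num))
    (((gc (F := fun p => 2 * p 0 - p 1) (by fun_prop)).mul gyi).mono (by norm_num))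
    ((gc continuous_const).mono (by norm_num))
  have h1 := lin4 hs (F1 := fun p => φ p) (F2 := fun p => (p 0 * (p 1)⁻¹) * φ p)
    (F3 := fun p => (p 0 * (p 0 - p 1) * (p 1)⁻¹) * dz 0 φ p) (F4 := fun p => φ p)
    (-(9 * s + 1)) (12 * s + 2) 1 0 h.1.1 (fun p => ?_)
    ⟨hφ.gr.mono (by norm_num), hφ.supp'⟩
    (okT (((gc (by fun_prop)).mul gyi).mono (by norm_num)) hφ)
    (okT (((gc (by fun_prop)).mul gyi).mono (by norm_num)) (hφ.dz 0))
    ⟨hφ.gr.mono (by norm_num), hφ.supp'⟩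
  · linear_combination -h1
  · by_cases h0 : nf p = 0
    · rw [DD_zero hs h0]; ring
    · obtain ⟨hx, hxy, hy, hyz, hz⟩ := nz h0
      rw [ell0]
      field_simp
      ring

/-- F2 -/
lemma F2 {s : ℝ} (hs : 1 < s) {ψ : (Fin 3 → ℂ) → ℂ} (hψ : TF ψ) :
    (9 * s + 1) * II s (fun p => (p 0 * (p 0 - p 1) * (p 1)⁻¹) * ψ p) =
      -(3 * s) * II s (fun p => (p 0 * starRingEnd ℂ (p 0) * (p 0 - p 1) *
        (starRingEnd ℂ (p 0) - starRingEnd ℂ (p 1))⁻¹ * (p 1)⁻¹) * ψ p) -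
        II s (fun p => (p 0 * starRingEnd ℂ (p 0) * (p 0 - p 1) * (p 1)⁻¹) * db 0 ψ p) := by
  have hu : ∀ p : Fin 3 → ℂ, HW 0 (fun q => (q 0 * starRingEnd ℂ (q 0) * (q 0 - q 1)) * (q 1)⁻¹)
      ((starRingEnd ℂ (p 0) * (p 0 - p 1) + p 0 * starRingEnd ℂ (p 0)) * (p 1)⁻¹)
      ((p 0 * (p 0 - p 1)) * (p 1)⁻¹) p := fun p =>
    ((((HW.coord).mul HW.coord_star).mul (HW.coord.sub (HW.coord_ne (i := 1) (by decide)
      (fun w => w)))).mul
      (HW.coord_ne (i := 1) (by decide) (fun w => w⁻¹))).congr (by ring) (by ring)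
  have h := ibpT hs hψ hu (((gc (by fun_prop)).mul gyi).mono (by norm_num))
    (((gc (F := fun p => starRingEnd ℂ (p 0) * (p 0 - p 1) + p 0 * starRingEnd ℂ (p 0))
      (by fun_prop)).mul gyi).mono (by norm_num))
    (((gc (F := fun p => p 0 * (p 0 - p 1)) (by fun_prop)).mul gyi).mono (by norm_num))
  have h1 := lin4 hs (F1 := fun p => (p 0 * (p 0 - p 1) * (p 1)⁻¹) * ψ p)
    (F2 := fun p => (p 0 * starRingEnd ℂ (p 0) * (p 0 - p 1) *
        (starRingEnd ℂ (p 0) - starRingEnd ℂ (p 1))⁻¹ * (p 1)⁻¹) * ψ p)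
    (F3 := fun p => (p 0 * starRingEnd ℂ (p 0) * (p 0 - p 1) * (p 1)⁻¹) * db 0 ψ p)
    (F4 := fun p => ψ p)
    (9 * s + 1) (3 * s) 1 0 h.1.2 (fun p => ?_)
    (okT (((gc (by fun_prop)).mul gyi).mono (by norm_num)) hψ)
    (okT ((((gc (by fun_prop)).mul gxyb).mul gyi).mono (by norm_num)) hψ)
    (okT (((gc (by fun_prop)).mul gyi).mono (by norm_num)) (hψ.db 0))
    ⟨hψ.gr.mono (by norm_num), hψ.supp'⟩
  · linear_combination h1
  · by_cases h0 : nf p = 0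
    · rw [DD_zero hs h0]; ring
    · obtain ⟨hx, hxy, hy, hyz, hz⟩ := nz h0
      have hxb : starRingEnd ℂ (p 0) ≠ 0 := by simpa using hx
      have hyb : starRingEnd ℂ (p 1) ≠ 0 := by simpa using hy
      have hxyb : starRingEnd ℂ (p 0) - starRingEnd ℂ (p 1) ≠ 0 := by
        rw [← map_sub]; exact (map_ne_zero _).2 hxy
      rw [conj_ell0]
      field_simp
      ring

/-- F5 -/
lemma F5 {s : ℝ} (hs : 1 < s) {ψ : (Fin 3 → ℂ) → ℂ} (hψ : TF ψ) :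
    (9 * s + 1) * II s (fun p => p 0 * ψ p) =
      (12 * s + 2) * II s (fun p => (p 0 * starRingEnd ℂ (p 0) * (starRingEnd ℂ (p 1))⁻¹) * ψ p) +
        II s (fun p => (p 0 * starRingEnd ℂ (p 0) * (starRingEnd ℂ (p 1))⁻¹) *
          ((starRingEnd ℂ (p 0) - starRingEnd ℂ (p 1)) * db 0 ψ p)) := by
  have hu : ∀ p : Fin 3 → ℂ, HW 0 (fun q => (q 0 * starRingEnd ℂ (q 0) *
      (starRingEnd ℂ (q 0) - starRingEnd ℂ (q 1))) * (starRingEnd ℂ (q 1))⁻¹)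
      ((starRingEnd ℂ (p 0) * (starRingEnd ℂ (p 0) - starRingEnd ℂ (p 1))) *
        (starRingEnd ℂ (p 1))⁻¹)
      ((p 0 * (2 * starRingEnd ℂ (p 0) - starRingEnd ℂ (p 1))) * (starRingEnd ℂ (p 1))⁻¹) p :=
      fun p =>
    ((((HW.coord).mul HW.coord_star).mul (HW.coord_star.sub (HW.coord_ne (i := 1) (by decide)
      (fun w => starRingEnd ℂ w)))).mul
      (HW.coord_ne (i := 1) (by decide) (fun w => (starRingEnd ℂ w)⁻¹))).congr
        (by ring) (by ring)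
  have h := ibpT hs hψ hu (((gc (by fun_prop)).mul gyb).mono (by norm_num))
    (((gc (F := fun p => starRingEnd ℂ (p 0) * (starRingEnd ℂ (p 0) - starRingEnd ℂ (p 1)))
      (by fun_prop)).mul gyb).mono (by norm_num))
    (((gc (F := fun p => p 0 * (2 * starRingEnd ℂ (p 0) - starRingEnd ℂ (p 1)))
      (by fun_prop)).mul gyb).mono (by norm_num))
  have hψ2 : TF (fun p => (starRingEnd ℂ (p 0) - starRingEnd ℂ (p 1)) * db 0 ψ p) :=
    (hψ.db 0).mul_left (u := fun p => starRingEnd ℂ (p 0) - starRingEnd ℂ (p 1)) (by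
      have h0 : ContDiff ℝ (⊤ : ℕ∞) (fun p : Fin 3 → ℂ => starRingEnd ℂ (p 0)) :=
        Complex.conjCLE.contDiff.comp (contDiff_apply ℝ ℂ 0)
      have h1 : ContDiff ℝ (⊤ : ℕ∞) (fun p : Fin 3 → ℂ => starRingEnd ℂ (p 1)) :=
        Complex.conjCLE.contDiff.comp (contDiff_apply ℝ ℂ 1)
      exact h0.sub h1)
  have h1 := lin4 hs (F1 := fun p => p 0 * ψ p)
    (F2 := fun p => (p 0 * starRingEnd ℂ (p 0) * (starRingEnd ℂ (p 1))⁻¹) * ψ p)
    (F3 := fun p => (p 0 * starRingEnd ℂ (p 0) * (starRingEnd ℂ (p 1))⁻¹) *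
          ((starRingEnd ℂ (p 0) - starRingEnd ℂ (p 1)) * db 0 ψ p))
    (F4 := fun p => ψ p)
    (-(9 * s + 1)) (12 * s + 2) 1 0 h.1.2 (fun p => ?_)
    (okT ((gc (by fun_prop)).mono (by norm_num)) hψ)
    (okT (((gc (by fun_prop)).mul gyb).mono (by norm_num)) hψ)
    (okT (((gc (by fun_prop)).mul gyb).mono (by norm_num)) hψ2)
    ⟨hψ.gr.mono (by norm_num), hψ.supp'⟩
  · linear_combination -h1
  · by_cases h0 : nf p = 0
    · rw [DD_zero hs h0]; ring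
    · obtain ⟨hx, hxy, hy, hyz, hz⟩ := nz h0
      have hxb : starRingEnd ℂ (p 0) ≠ 0 := by simpa using hx
      have hyb : starRingEnd ℂ (p 1) ≠ 0 := by simpa using hy
      have hxyb : starRingEnd ℂ (p 0) - starRingEnd ℂ (p 1) ≠ 0 := by
        rw [← map_sub]; exact (map_ne_zero _).2 hxy
      rw [conj_ell0]
      field_simp
      ring

/-- F3 -/
lemma F3 {s : ℝ} (hs : 1 < s) {φ : (Fin 3 → ℂ) → ℂ} (hφ : TF φ) :
    (18 * s + 3) * II s (fun p => (p 0 * (p 1)⁻¹) * φ p) =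
      -(II s (fun p => (p 0 ^ 2 * (p 1)⁻¹) * dz 0 φ p) + II s (fun p => p 0 * dz 1 φ p) +
        II s (fun p => (p 0 * p 2 * (p 1)⁻¹) * dz 2 φ p)) := by
  have hu0 : ∀ p : Fin 3 → ℂ, HW 0 (fun q => (q 0 * q 0) * (q 1)⁻¹)
      ((2 * p 0) * (p 1)⁻¹) 0 p := fun p =>
    ((HW.coord.mul HW.coord).mul
      (HW.coord_ne (i := 1) (by decide) (fun w => w⁻¹))).congr (by ring) (by ring)
  have hu1 : ∀ p : Fin 3 → ℂ, HW 1 (fun q => q 0) 0 0 p := fun p =>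
    HW.coord_ne (i := 0) (by decide) (fun w => w)
  have hu2 : ∀ p : Fin 3 → ℂ, HW 2 (fun q => (q 0 * (q 1)⁻¹) * q 2)
      (p 0 * (p 1)⁻¹) 0 p := fun p =>
    (((HW.coord_ne (i := 0) (by decide) (fun w => w)).mul
      (HW.coord_ne (i := 1) (by decide) (fun w => w⁻¹))).mul HW.coord).congr (by ring) (by ring)
  have g0 : Gr 2 (fun _ : Fin 3 → ℂ => (0:ℂ)) := (gc continuous_const).mono (by norm_num)
  have h0 := ibpT hs hφ hu0 (((gc (by fun_prop)).mul gyi).mono (by norm_num))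
    (((gc (F := fun p => 2 * p 0) (by fun_prop)).mul gyi).mono (by norm_num)) g0
  have h1 := ibpT hs hφ hu1 ((gc (by fun_prop)).mono (by norm_num)) g0 g0
  have gxy : Gr 2 (fun p : Fin 3 → ℂ => p 0 * (p 1)⁻¹) :=
    ((gc (F := fun p => p 0) (by fun_prop)).mul gyi).mono (by norm_num)
  have h2 := ibpT hs hφ hu2 ((((gc (F := fun p => p 0) (by fun_prop)).mul gyi).mul
    (gc (F := fun p => p 2) (by fun_prop))).mono (by norm_num)) gxy g0
  have hsum : ∫ p, (DD s p * (ell s (sg 0 1) p * ((p 0 * p 0) * (p 1)⁻¹ * φ p) +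
      ((2 * p 0) * (p 1)⁻¹ * φ p + (p 0 * p 0) * (p 1)⁻¹ * dz 0 φ p)) +
      DD s p * (ell s (sg 1 1) p * (p 0 * φ p) + (0 * φ p + p 0 * dz 1 φ p)) +
      DD s p * (ell s (sg 2 1) p * ((p 0 * (p 1)⁻¹) * p 2 * φ p) +
      ((p 0 * (p 1)⁻¹) * φ p + (p 0 * (p 1)⁻¹) * p 2 * dz 2 φ p))) = 0 := by
    rw [int_add (iadd h0.2.1 h1.2.1) h2.2.1, int_add h0.2.1 h1.2.1, h0.1.1, h1.1.1, h2.1.1]
    ring
  have h3 := lin4 hs (F1 := fun p => (p 0 * (p 1)⁻¹) * φ p)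
    (F2 := fun p => (p 0 ^ 2 * (p 1)⁻¹) * dz 0 φ p)
    (F3 := fun p => p 0 * dz 1 φ p)
    (F4 := fun p => (p 0 * p 2 * (p 1)⁻¹) * dz 2 φ p)
    (18 * s + 3) 1 1 1 hsum (fun p => ?_)
    (okT (((gc (by fun_prop)).mul gyi).mono (by norm_num)) hφ)
    (okT (((gc (by fun_prop)).mul gyi).mono (by norm_num)) (hφ.dz 0))
    (okT ((gc (by fun_prop)).mono (by norm_num)) (hφ.dz 1))
    (okT (((gc (by fun_prop)).mul gyi).mono (by norm_num)) (hφ.dz 2))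
  · linear_combination h3
  · by_cases h0 : nf p = 0
    · rw [DD_zero hs h0]; ring
    · obtain ⟨hx, hxy, hy, hyz, hz⟩ := nz h0
      rw [ell0, ell1, ell2]
      field_simp
      ring

/-- F4 -/
lemma F4 {s : ℝ} (hs : 1 < s) {ψ : (Fin 3 → ℂ) → ℂ} (hψ : TF ψ) :
    (14 * s + 2) * II s (fun p => (p 0 * p 2 * (p 1)⁻¹) * ψ p) =
      (16 * s + 3) * II s (fun p => p 0 * ψ p) +
        II s (fun p => (p 0 ^ 2 * (p 1)⁻¹) * ((p 1 - p 2) * dz 0 ψ p)) +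
        II s (fun p => p 0 * ((p 1 - p 2) * dz 1 ψ p)) := by
  have hu0 : ∀ p : Fin 3 → ℂ, HW 0 (fun q => ((q 0 * q 0) * (q 1 - q 2)) * (q 1)⁻¹)
      ((2 * p 0 * (p 1 - p 2)) * (p 1)⁻¹) 0 p := fun p =>
    (((HW.coord.mul HW.coord).mul ((HW.coord_ne (i := 1) (by decide) (fun w => w)).sub
      (HW.coord_ne (i := 2) (by decide) (fun w => w)))).mul
      (HW.coord_ne (i := 1) (by decide) (fun w => w⁻¹))).congr (by ring) (by ring)
  have hu1 : ∀ p : Fin 3 → ℂ, HW 1 (fun q => q 0 * (q 1 - q 2)) (p 0) 0 p := fun p =>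
    ((HW.coord_ne (i := 0) (by decide) (fun w => w)).mul
      (HW.coord.sub (HW.coord_ne (i := 2) (by decide) (fun w => w)))).congr (by ring) (by ring)
  have g0 : Gr 2 (fun _ : Fin 3 → ℂ => (0:ℂ)) := (gc continuous_const).mono (by norm_num)
  have h0 := ibpT hs hψ hu0 (((gc (by fun_prop)).mul gyi).mono (by norm_num))
    (((gc (F := fun p => 2 * p 0 * (p 1 - p 2)) (by fun_prop)).mul gyi).mono (by norm_num)) g0
  have h1 := ibpT hs hψ hu1 ((gc (by fun_prop)).mono (by norm_num))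
    ((gc (by fun_prop)).mono (by norm_num)) g0
  have hsum : ∫ p, (DD s p * (ell s (sg 0 1) p * (((p 0 * p 0) * (p 1 - p 2)) * (p 1)⁻¹ * ψ p) +
      ((2 * p 0 * (p 1 - p 2)) * (p 1)⁻¹ * ψ p +
        ((p 0 * p 0) * (p 1 - p 2)) * (p 1)⁻¹ * dz 0 ψ p)) +
      DD s p * (ell s (sg 1 1) p * (p 0 * (p 1 - p 2) * ψ p) +
        (p 0 * ψ p + p 0 * (p 1 - p 2) * dz 1 ψ p))) = 0 := by
    rw [int_add h0.2.1 h1.2.1, h0.1.1, h1.1.1]
    ring
  have sm : ContDiff ℝ (⊤ : ℕ∞) (fun p : Fin 3 → ℂ => p 1 - p 2) :=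
    (contDiff_apply ℝ ℂ 1).sub (contDiff_apply ℝ ℂ 2)
  have h3 := lin4 hs (F1 := fun p => (p 0 * p 2 * (p 1)⁻¹) * ψ p)
    (F2 := fun p => p 0 * ψ p)
    (F3 := fun p => (p 0 ^ 2 * (p 1)⁻¹) * ((p 1 - p 2) * dz 0 ψ p))
    (F4 := fun p => p 0 * ((p 1 - p 2) * dz 1 ψ p))
    (-(14 * s + 2)) (16 * s + 3) 1 1 hsum (fun p => ?_)
    (okT (((gc (by fun_prop)).mul gyi).mono (by norm_num)) hψ)
    (okT ((gc (by fun_prop)).mono (by norm_num)) hψ)
    (okT (((gc (by fun_prop)).mul gyi).mono (by norm_num)) ((hψ.dz 0).mul_left sm))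
    (okT ((gc (by fun_prop)).mono (by norm_num)) ((hψ.dz 1).mul_left sm))
  · linear_combination -h3
  · by_cases h0 : nf p = 0
    · rw [DD_zero hs h0]; ring
    · obtain ⟨hx, hxy, hy, hyz, hz⟩ := nz h0
      rw [ell0, ell1]
      field_simp
      ring

end Pool.Agent.H158Z
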