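import Mathlib
import Pool.Agent.H158Z.Idents

set_option autoImplicit false
set_option maxHeartbeats 1000000

open MeasureTheory Set

namespace Pool.Agent.H158Z

/-- analytic on the region -/
def AN (F : ℂ → ℂ) : Prop := DifferentiableOn ℂ F UU

lemma AN.const (c : ℂ) : AN (fun _ => c) := differentiableOn_const _
lemma AN.id : AN (fun s => s) := differentiableOn_id
lemma AN.mul {F G : ℂ → ℂ} (hF : AN F) (hG : AN G) : AN (fun s => F s * G s) :=
  DifferentiableOn.mul hF hG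
lemma AN.add {F G : ℂ → ℂ} (hF : AN F) (hG : AN G) : AN (fun s => F s + G s) :=
  DifferentiableOn.add hF hG
lemma AN.sub {F G : ℂ → ℂ} (hF : AN F) (hG : AN G) : AN (fun s => F s - G s) :=
  DifferentiableOn.sub hF hG

lemma base {g : (Fin 3 → ℂ) → ℂ} (hg : Adm g) :
    ∃ F, AN F ∧ ∀ s : ℝ, 1 < s → II s g = F s := by
  refine ⟨fun s => ∫ p, Ds s p * g p, hg.differentiableOn, fun s _ => ?_⟩
  unfold II
  simp only [Ds_real]

lemma adm_mk {w ψ : (Fin 3 → ℂ) → ℂ} (hw : Measurable w) (hψ : TF ψ)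
    (hb : ∀ p, ‖w p‖ ≤ ‖p 0‖ ^ 2 * ‖p 1‖⁻¹) : Adm (fun p => w p * ψ p) := by
  obtain ⟨R, hR, hs⟩ := hψ.supp'
  obtain ⟨C, hC⟩ := hψ.smooth.continuous.bounded_above_of_compact_support hψ.supp
  refine ⟨hw.mul hψ.smooth.continuous.measurable, R, max C 0, hR, le_max_right _ _,
    fun p hp => by simp only [hs p hp, mul_zero], fun p => ?_⟩
  rw [norm_mul]
  calc ‖w p‖ * ‖ψ p‖ ≤ (‖p 0‖ ^ 2 * ‖p 1‖⁻¹) * max C 0 :=
        mul_le_mul (hb p) ((hC p).trans (le_max_left _ _)) (norm_nonneg _) (by positivity)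
    _ = _ := by ring

lemma sm12 : ContDiff ℝ (⊤ : ℕ∞) (fun p : Fin 3 → ℂ => p 1 - p 2) :=
    (contDiff_apply ℝ ℂ 1).sub (contDiff_apply ℝ ℂ 2)

lemma sm01 : ContDiff ℝ (⊤ : ℕ∞) (fun p : Fin 3 → ℂ => p 0 - p 1) :=
    (contDiff_apply ℝ ℂ 0).sub (contDiff_apply ℝ ℂ 1)

lemma smb : ContDiff ℝ (⊤ : ℕ∞)
    (fun p : Fin 3 → ℂ => starRingEnd ℂ (p 0) - starRingEnd ℂ (p 1)) := by
  have h0 : ContDiff ℝ (⊤ : ℕ∞) (fun p : Fin 3 → ℂ => starRingEnd ℂ (p 0)) :=
    Complex.conjCLE.contDiff.comp (contDiff_apply ℝ ℂ 0)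
  have h1 : ContDiff ℝ (⊤ : ℕ∞) (fun p : Fin 3 → ℂ => starRingEnd ℂ (p 1)) :=
    Complex.conjCLE.contDiff.comp (contDiff_apply ℝ ℂ 1)
  exact h0.sub h1

lemma mz (i : Fin 3) : Measurable (fun p : Fin 3 → ℂ => starRingEnd ℂ (p i)) :=
  Complex.continuous_conj.measurable.comp (measurable_pi_apply i)

/-- `II (x²/y ψ)` -/
lemma X3 {ψ : (Fin 3 → ℂ) → ℂ} (hψ : TF ψ) :
    ∃ F, AN F ∧ ∀ s : ℝ, 1 < s → II s (fun p => (p 0 ^ 2 * (p 1)⁻¹) * ψ p) = F s :=
  base (adm_mk (by fun_prop) hψ fun p => by rw [norm_mul, norm_pow, norm_inv])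

/-- `II (|x|²/ȳ ψ)` -/
lemma X3b {ψ : (Fin 3 → ℂ) → ℂ} (hψ : TF ψ) :
    ∃ F, AN F ∧ ∀ s : ℝ, 1 < s →
      II s (fun p => (p 0 * starRingEnd ℂ (p 0) * (starRingEnd ℂ (p 1))⁻¹) * ψ p) = F s :=
  base (adm_mk (by
    have := mz 0
    have := mz 1
    fun_prop) hψ fun p => by
      rw [norm_mul, norm_mul, norm_inv, RCLike.norm_conj, RCLike.norm_conj, ← pow_two])

/-- `II (x ψ)` -/
lemma X1 {ψ : (Fin 3 → ℂ) → ℂ} (hψ : TF ψ) :
    ∃ F, AN F ∧ ∀ s : ℝ, 1 < s → (9 * s + 1) * II s (fun p => p 0 * ψ p) = F s := by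
  obtain ⟨A, hA, hA'⟩ := X3b hψ
  obtain ⟨B, hB, hB'⟩ := X3b ((hψ.db 0).mul_left smb)
  refine ⟨fun s => (12 * s + 2) * A s + B s,
    ((((AN.const 12).mul AN.id).add (AN.const 2)).mul hA).add hB, fun s hs => ?_⟩
  beta_reduce
  rw [F5 hs hψ, hA' s hs, hB' s hs]

/-- `II (x(x-y)/y ψ)` -/
lemma X2 {ψ : (Fin 3 → ℂ) → ℂ} (hψ : TF ψ) :
    ∃ F, AN F ∧ ∀ s : ℝ, 1 < s →
      (9 * s + 1) * II s (fun p => (p 0 * (p 0 - p 1) * (p 1)⁻¹) * ψ p) = F s := by
  have m0 := mz 0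
  have m1 := mz 1
  obtain ⟨A, hA, hA'⟩ := base (adm_mk (w := fun p => p 0 * starRingEnd ℂ (p 0) * (p 0 - p 1) *
        (starRingEnd ℂ (p 0) - starRingEnd ℂ (p 1))⁻¹ * (p 1)⁻¹) (by fun_prop) hψ (fun p => by
    rw [norm_mul, norm_mul, norm_mul, norm_mul, norm_inv, norm_inv, RCLike.norm_conj, ← map_sub,
      RCLike.norm_conj, ← pow_two]
    by_cases h : p 0 - p 1 = 0
    · rw [h]; simp; positivity
    · have h2 : ‖p 0 - p 1‖ ≠ 0 := norm_ne_zero_iff.2 h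
      rw [mul_assoc (‖p 0‖ ^ 2), mul_inv_cancel₀ h2, mul_one]))
  have hψ2 : TF (fun p => (p 0 - p 1) * db 0 ψ p) := (hψ.db 0).mul_left sm01
  obtain ⟨B, hB, hB'⟩ := base (adm_mk (w := fun p => p 0 * starRingEnd ℂ (p 0) * (p 1)⁻¹)
    (by fun_prop) hψ2 (fun p => by
      rw [norm_mul, norm_mul, norm_inv, RCLike.norm_conj, ← pow_two]))
  refine ⟨fun s => -(3 * s) * A s - B s, ?_, fun s hs => ?_⟩
  · have h3 : AN (fun s => -(3 * s)) := DifferentiableOn.neg ((AN.const 3).mul AN.id)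
    exact (h3.mul hA).sub hB
  · beta_reduce
    rw [F2 hs hψ, hA' s hs, ← hB' s hs]
    congr 2
    funext p
    ring

/-- `II (x z/y ψ)` -/
lemma X4 {ψ : (Fin 3 → ℂ) → ℂ} (hψ : TF ψ) :
    ∃ F, AN F ∧ ∀ s : ℝ, 1 < s →
      (9 * s + 1) * ((14 * s + 2) * II s (fun p => (p 0 * p 2 * (p 1)⁻¹) * ψ p)) = F s := by
  obtain ⟨A, hA, hA'⟩ := X1 hψ
  obtain ⟨B, hB, hB'⟩ := X3 ((hψ.dz 0).mul_left sm12)
  obtain ⟨C, hC, hC'⟩ := X1 ((hψ.dz 1).mul_left sm12)
  refine ⟨fun s => (16 * s + 3) * A s + (9 * s + 1) * B s + C s,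
    (((((AN.const 16).mul AN.id).add (AN.const 3)).mul hA).add
      ((((AN.const 9).mul AN.id).add (AN.const 1)).mul hB)).add hC, fun s hs => ?_⟩
  beta_reduce
  rw [F4 hs hψ, ← hA' s hs, ← hB' s hs, ← hC' s hs]
  ring

/-- `II (x/y φ)` -/
lemma X5 {φ : (Fin 3 → ℂ) → ℂ} (hφ : TF φ) :
    ∃ F, AN F ∧ ∀ s : ℝ, 1 < s →
      (9 * s + 1) * (14 * s + 2) * ((18 * s + 3) * II s (fun p => (p 0 * (p 1)⁻¹) * φ p)) = F s := by
  obtain ⟨A, hA, hA'⟩ := X3 (hφ.dz 0)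
  obtain ⟨B, hB, hB'⟩ := X1 (hφ.dz 1)
  obtain ⟨C, hC, hC'⟩ := X4 (hφ.dz 2)
  refine ⟨fun s => (-1) * (((9 * s + 1) * (14 * s + 2)) * A s + (14 * s + 2) * B s + C s), ?_,
    fun s hs => ?_⟩
  · have k9 : AN (fun s => 9 * s + 1) := ((AN.const 9).mul AN.id).add (AN.const 1)
    have k14 : AN (fun s => 14 * s + 2) := ((AN.const 14).mul AN.id).add (AN.const 2)
    exact (AN.const (-1)).mul ((((k9.mul k14).mul hA).add (k14.mul hB)).add hC)
  · beta_reduce
    rw [F3 hs hφ, ← hA' s hs, ← hB' s hs, ← hC' s hs]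
    ring

/-- the continuation of the zeta function: no factor `18 s + 3` is needed -/
theorem X6 {φ : (Fin 3 → ℂ) → ℂ} (hφ : TF φ) :
    ∃ F, AN F ∧ ∀ s : ℝ, 1 < s →
      (9 * s + 1) ^ 2 * (14 * s + 2) * II s (fun p => φ p) = F s := by
  obtain ⟨A, hA, hA'⟩ := X5 hφ
  obtain ⟨B, hB, hB'⟩ := X2 (hφ.dz 0)
  refine ⟨fun s => (2 / 3) * A s + (14 * s + 2) * B s, ?_, fun s hs => ?_⟩
  · have k14 : AN (fun s => 14 * s + 2) := ((AN.const 14).mul AN.id).add (AN.const 2)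
    exact ((AN.const (2/3)).mul hA).add (k14.mul hB)
  · beta_reduce
    rw [← hA' s hs, ← hB' s hs]
    have := F1 hs hφ
    linear_combination (9 * (s : ℂ) + 1) * (14 * s + 2) * this

/-- On `Re s > 0` the zeta function is analytic. -/
theorem zeta_deriv {φ : (Fin 3 → ℂ) → ℂ} (hφ : TF φ) {s₁ : ℂ} (hs : 0 < s₁.re) :
    HasDerivAt (fun s => ∫ p, Ds s p * φ p) (∫ p, Ds s₁ p * (2 * Real.log (nf p)) * φ p) s₁ := by
  obtain ⟨R, hR, hsupp⟩ := hφ.supp'
  obtain ⟨C, hC⟩ := hφ.smooth.continuous.bounded_above_of_compact_support hφ.supp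
  have hC0 : 0 ≤ C := le_trans (norm_nonneg _) (hC 0)
  have hm := hφ.smooth.continuous.measurable
  set δ : ℝ := s₁.re / 2 with hδ
  have hδ0 : 0 < δ := by linarith
  have hb : Integrable ((Metric.ball (0 : Fin 3 → ℂ) R).indicator
      (fun _ => 2 * (KK R δ * C))) volume := by
    rw [integrable_indicator_iff measurableSet_ball]
    exact integrableOn_const (measure_ball_lt_top).ne
  have hbd : ∀ s : ℂ, ∀ p, 0 < nf p → p ∈ Metric.ball (0 : Fin 3 → ℂ) R → δ ≤ s.re →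
      s.re ≤ 3 * δ → ‖Ds s p‖ ≤ KK R δ ∧ ‖Ds s p‖ * |Real.log (nf p)| ≤ KK R δ := by
    intro s p hp hpR h1 h2
    rw [norm_Ds hp]
    exact pow_bound hp (nf_le R hR p hpR) (MM_one_le R hR) hδ0 (by linarith) (by linarith)
  have hKK : 0 ≤ KK R δ := by
    unfold KK
    have := MM_one_le R hR
    positivity
  refine (hasDerivAt_integral_of_dominated_loc_of_deriv_le (μ := volume) (𝕜 := ℂ)
    (F := fun s p => Ds s p * φ p)
    (F' := fun s p => Ds s p * (2 * Real.log (nf p)) * φ p) (x₀ := s₁)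
    (s := Metric.ball s₁ δ) (bound := (Metric.ball (0 : Fin 3 → ℂ) R).indicator
      (fun _ => 2 * (KK R δ * C)))
    (Metric.ball_mem_nhds s₁ hδ0) ?_ ?_ ?_ ?_ hb ?_).2
  · exact Filter.Eventually.of_forall fun s => ((Ds_measurable s).mul hm).aestronglyMeasurable
  · refine Integrable.mono' hb ((Ds_measurable s₁).mul hm).aestronglyMeasurable ?_
    filter_upwards [nf_pos_ae] with p hp
    by_cases hpR : p ∈ Metric.ball (0 : Fin 3 → ℂ) R
    · rw [indicator_of_mem hpR, norm_mul]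
      have h1 := (hbd s₁ p hp hpR (by linarith) (by linarith)).1
      calc ‖Ds s₁ p‖ * ‖φ p‖ ≤ KK R δ * C :=
            mul_le_mul h1 (hC p) (norm_nonneg _) hKK
        _ ≤ 2 * (KK R δ * C) := by
            have := mul_nonneg hKK hC0
            linarith
    · rw [indicator_of_notMem hpR, hsupp p hpR]; simp
  · have h1 : Measurable (fun p => (2 * Real.log (nf p) : ℂ)) := by
      have := nf_measurable
      fun_prop
    exact (((Ds_measurable s₁).mul h1).mul hm).aestronglyMeasurable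
  · filter_upwards [nf_pos_ae] with p hp s hsb
    have hre : |s.re - s₁.re| < δ := by
      have h1 : ‖s - s₁‖ < δ := by simpa [dist_eq_norm] using hsb
      have h2 := Complex.abs_re_le_norm (s - s₁)
      rw [Complex.sub_re] at h2
      linarith
    rw [abs_lt] at hre
    by_cases hpR : p ∈ Metric.ball (0 : Fin 3 → ℂ) R
    · rw [indicator_of_mem hpR, norm_mul, norm_mul]
      have h1 := (hbd s p hp hpR (by linarith [hre.1]) (by linarith [hre.2])).2
      have h4 : ‖(2 * Real.log (nf p) : ℂ)‖ = 2 * |Real.log (nf p)| := by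
        rw [norm_mul, Complex.norm_real]; simp
      rw [h4]
      calc ‖Ds s p‖ * (2 * |Real.log (nf p)|) * ‖φ p‖
          = 2 * ((‖Ds s p‖ * |Real.log (nf p)|) * ‖φ p‖) := by ring
        _ ≤ 2 * (KK R δ * C) := by
            have := mul_le_mul h1 (hC p) (norm_nonneg _) hKK
            linarith
    · rw [indicator_of_notMem hpR, hsupp p hpR]; simp
  · filter_upwards [nf_pos_ae] with p hp s _
    have hne : ((nf p : ℝ) : ℂ) ≠ 0 := by exact_mod_cast hp.ne'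
    have h1 : HasDerivAt (fun s : ℂ => 2 * s) 2 s := by
      simpa using (hasDerivAt_id s).const_mul (2 : ℂ)
    have h2 := (h1.const_cpow (c := ((nf p : ℝ) : ℂ)) (Or.inl hne)).mul_const (φ p)
    have h3 : Ds s p * (2 * Real.log (nf p)) * φ p =
        ((nf p : ℝ) : ℂ) ^ (2 * s) * Complex.log (nf p : ℝ) * 2 * φ p := by
      unfold Ds
      rw [← Complex.ofReal_log hp.le]
      ring
    rw [h3]
    exact h2

/-- the right half plane -/
def VV : Set ℂ := {s | 0 < s.re}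

theorem zeta_diff {φ : (Fin 3 → ℂ) → ℂ} (hφ : TF φ) :
    DifferentiableOn ℂ (fun s => ∫ p, Ds s p * φ p) VV := fun _ hs =>
  (zeta_deriv hφ hs).differentiableAt.differentiableWithinAt

lemma VV_open : IsOpen VV := isOpen_lt continuous_const Complex.continuous_re

lemma VV_conv : Convex ℝ VV := convex_halfSpace_re_gt _

/-- two functions analytic on `VV` that agree for large real `s` agree -/
lemma ident {f g : ℂ → ℂ} (hf : DifferentiableOn ℂ f VV) (hg : DifferentiableOn ℂ g VV)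
    (h : ∀ s : ℝ, 1 < s → f s = g s) : EqOn f g VV := by
  have h2 : (2 : ℂ) ∈ VV := by show (0:ℝ) < (2:ℂ).re; norm_num
  refine AnalyticOnNhd.eqOn_of_preconnected_of_frequently_eq (hf.analyticOnNhd VV_open)
    (hg.analyticOnNhd VV_open) VV_conv.isPreconnected h2 ?_
  have h3 : Filter.Tendsto (fun t : ℝ => ((2 + t : ℝ) : ℂ)) (nhdsWithin 0 {0}ᶜ)
      (nhdsWithin 2 {2}ᶜ) := by
    apply tendsto_nhdsWithin_of_tendsto_nhds_of_eventually_within
    · have hc : Continuous (fun t : ℝ => ((2 + t : ℝ) : ℂ)) := by fun_prop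
      have := hc.tendsto 0
      simp only [add_zero, Complex.ofReal_ofNat] at this
      exact this.mono_left nhdsWithin_le_nhds
    · filter_upwards [self_mem_nhdsWithin] with t ht
      have ht' : t ≠ 0 := ht
      simp only [mem_compl_iff, mem_singleton_iff]
      intro hc
      apply ht'
      have := congrArg Complex.re hc
      simpa using this
  refine h3.frequently (Filter.Eventually.frequently ?_)
  have h4 : ∀ᶠ t : ℝ in nhdsWithin 0 {0}ᶜ, -1 < t :=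
    nhdsWithin_le_nhds (lt_mem_nhds (by norm_num))
  filter_upwards [h4] with t ht
  exact h _ (by linarith)

/-- **Main analytic statement.** -/
theorem main_cont {φ : (Fin 3 → ℂ) → ℂ} (hφ : TF φ) :
    ∃ F, DifferentiableOn ℂ F UU ∧ ∀ s : ℂ, 0 < s.re →
      (9 * s + 1) ^ 2 * (14 * s + 2) * (∫ p, Ds s p * φ p) = F s := by
  obtain ⟨F, hF, hF'⟩ := X6 hφ
  refine ⟨F, hF, ?_⟩
  have hsub : VV ⊆ UU := fun s hs => by
    have h1 : (0:ℝ) < s.re := hs
    show -(17/100) < s.re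
    linarith
  have h1 : DifferentiableOn ℂ (fun s : ℂ => (9 * s + 1) ^ 2 * (14 * s + 2) *
      (∫ p, Ds s p * φ p)) VV := by
    apply DifferentiableOn.mul _ (zeta_diff hφ)
    fun_prop
  intro s hs
  refine ident h1 (DifferentiableOn.mono hF hsub) (fun t ht => ?_) hs
  rw [← hF' t ht]
  unfold II
  simp only [Ds_real]

end Pool.Agent.H158Z
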